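import Pool.Agent.W2helper76.RGO.Det

set_option autoImplicit false

/-!
A bad set yields a subdivided skeleton (a code) with few special vertices.
-/

namespace Pool.Agent.W2helper76.RGO

open Relation Finset

variable {V : Type*} [LinearOrder V]

/-- consecutive pairs of a finite set -/
def cons (J : Finset V) : Finset (V × V) :=
  (J ×ˢ J).filter fun e => e.1 < e.2 ∧ ∀ w ∈ J, ¬ (e.1 < w ∧ w < e.2)

lemma mem_cons {J : Finset V} {e : V × V} :
    e ∈ cons J ↔ (e.1 ∈ J ∧ e.2 ∈ J) ∧ e.1 < e.2 ∧ ∀ w ∈ J, ¬ (e.1 < w ∧ w < e.2) := by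
  rw [cons, Finset.mem_filter, Finset.mem_product]

lemma card_cons_ge (J : Finset V) : J.card ≤ (cons J).card + 1 := by
  rcases J.eq_empty_or_nonempty with rfl | hJ
  · simp
  · have h1 : (J.erase (J.max' hJ)).card ≤ (cons J).card := by
      apply Finset.card_le_card_of_surjOn (fun e => e.1)
      intro x hx
      rw [Finset.mem_coe, Finset.mem_erase] at hx
      have hlt : x < J.max' hJ := lt_of_le_of_ne (Finset.le_max' J x hx.2) hx.1
      have hne : (J.filter fun w => x < w).Nonempty :=
        ⟨J.max' hJ, Finset.mem_filter.2 ⟨Finset.max'_mem J hJ, hlt⟩⟩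
      set y := (J.filter fun w => x < w).min' hne with hy
      have hyJ := Finset.mem_filter.1 (Finset.min'_mem _ hne)
      refine ⟨(x, y), ?_, rfl⟩
      rw [Finset.mem_coe, mem_cons]
      refine ⟨⟨hx.2, hyJ.1⟩, hyJ.2, ?_⟩
      rintro w hw ⟨h1, h2⟩
      have := Finset.min'_le _ w (Finset.mem_filter.2 ⟨hw, h1⟩)
      exact absurd h2 (not_lt.2 this)
    rw [Finset.card_erase_of_mem (Finset.max'_mem J hJ)] at h1
    have := hJ.card_pos
    omega

lemma cons_union {J1 J2 : Finset V} {v : V} (h1 : v ∈ J1) (h2 : v ∈ J2) (hle : ∀ w ∈ J1, w ≤ v)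
    (hge : ∀ w ∈ J2, v ≤ w) : cons (J1 ∪ J2) ⊆ cons J1 ∪ cons J2 := by
  intro e he
  rw [mem_cons] at he
  obtain ⟨⟨ha, hb⟩, hlt, hno⟩ := he
  have hv := hno v (Finset.mem_union_left _ h1)
  rw [Finset.mem_union, mem_cons, mem_cons]
  by_cases hav : e.1 < v
  · left
    have hbv : e.2 ≤ v := by
      by_contra hcon
      exact hv ⟨hav, not_le.1 hcon⟩
    refine ⟨⟨?_, ?_⟩, hlt, fun w hw => hno w (Finset.mem_union_left _ hw)⟩
    · rcases Finset.mem_union.1 ha with h | h
      · exact h
      · exact absurd hav (not_lt.2 (hge _ h))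
    · rcases Finset.mem_union.1 hb with h | h
      · exact h
      · rw [le_antisymm hbv (hge _ h)]; exact h1
  · right
    rw [not_lt] at hav
    refine ⟨⟨?_, ?_⟩, hlt, fun w hw => hno w (Finset.mem_union_right _ hw)⟩
    · rcases Finset.mem_union.1 ha with h | h
      · rw [le_antisymm (hle _ h) hav]; exact h2
      · exact h
    · rcases Finset.mem_union.1 hb with h | h
      · exact absurd (hav.trans_lt hlt) (not_lt.2 (hle _ h))
      · exact h

variable [Fintype V]

/-- the path of a skeleton edge `k`: its two ends and the interior vertices assigned to it -/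
def pth (φ : V → Option (V × V)) (k : V × V) : Finset V :=
  insert k.1 (insert k.2 (Finset.univ.filter fun v => φ v = some k))

lemma mem_pth {φ : V → Option (V × V)} {k : V × V} {v : V} :
    v ∈ pth φ k ↔ v = k.1 ∨ v = k.2 ∨ φ v = some k := by
  simp [pth]

/-- the code of a subdivided skeleton in the graph `E`: special vertices `S`, skeleton edges `K`,
interior vertices assigned to skeleton edges by `φ` -/
structure Code (C : V → Prop) (E : Finset (V × V)) (S : Finset V) (K : Finset (V × V))
    (φ : V → Option (V × V)) : Prop where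
  K_sub : ∀ k ∈ K, k.1 ∈ S ∧ k.2 ∈ S ∧ k.1 < k.2
  φ_in : ∀ v k, φ v = some k → k ∈ K ∧ v ∉ S ∧ k.1 < v ∧ v < k.2
  edges : ∀ k ∈ K, cons (pth φ k) ⊆ E
  card : K.card = S.card + 1
  src : ∀ v ∈ S, (∀ a, (a, v) ∉ K) → C v

/-- a bad set gives a code -/
lemma exists_code {C : V → Prop} {E : Finset (V × V)} (hE : ∀ e ∈ E, e.1 < e.2) {S : Finset V}
    (hS : IsBad C E S) : ∃ S K φ, Code C E S K φ := by
  classical
  obtain ⟨hsrc, hcard⟩ := hS
  have hne : (((span E S).powerset).filter fun K => S.card + 1 ≤ K.card ∧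
      ∀ v ∈ S, (∀ a, (a, v) ∉ K) → C v).Nonempty := by
    refine ⟨span E S, ?_⟩
    rw [Finset.mem_filter, Finset.mem_powerset]
    refine ⟨Finset.Subset.refl _, hcard, ?_⟩
    intro v hv hno
    rcases hsrc v hv with h | ⟨w, hw, hwv⟩
    · exact h
    · exact absurd (mem_span.2 ⟨hwv, hw, hv⟩) (hno w)
  obtain ⟨K, hK, hmin⟩ := Finset.exists_min_image _ (fun K : Finset (V × V) => K.card) hne
  rw [Finset.mem_filter, Finset.mem_powerset] at hK
  obtain ⟨hKs, hKc, hKsrc⟩ := hK
  refine ⟨S, K, fun _ => none, ?_, ?_, ?_, ?_, hKsrc⟩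
  · intro k hk
    have := mem_span.1 (hKs hk)
    exact ⟨this.2.1, this.2.2, hE _ this.1⟩
  · intro v k h
    simp at h
  · intro k hk e he
    rw [mem_cons, mem_pth, mem_pth] at he
    have hkl := hE _ (mem_span.1 (hKs hk)).1
    simp only [reduceCtorEq, or_false] at he
    obtain ⟨⟨ha, hb⟩, hlt, _⟩ := he
    have : e = k := by
      rcases ha with ha | ha <;> rcases hb with hb | hb
      · rw [ha, hb] at hlt; exact absurd hlt (lt_irrefl _)
      · exact Prod.ext ha hb
      · rw [ha, hb] at hlt; exact absurd (hlt.trans hkl) (lt_irrefl _)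
      · rw [ha, hb] at hlt; exact absurd hlt (lt_irrefl _)
    rw [this]
    exact (mem_span.1 (hKs hk)).1
  · by_contra hcon
    have hgt : S.card < K.card := by omega
    have hmaps : Set.MapsTo Prod.snd (K : Set (V × V)) (S : Set V) := fun k hk =>
      (mem_span.1 (hKs hk)).2.2
    obtain ⟨e, he, f, hf, hef, hef2⟩ := Finset.exists_ne_map_eq_of_card_lt_of_maps_to hgt hmaps
    have hgood : K.erase e ∈ ((span E S).powerset).filter fun K => S.card + 1 ≤ K.card ∧
        ∀ v ∈ S, (∀ a, (a, v) ∉ K) → C v := by
      rw [Finset.mem_filter, Finset.mem_powerset]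
      refine ⟨(Finset.erase_subset _ _).trans hKs, ?_, ?_⟩
      · rw [Finset.card_erase_of_mem he]; omega
      · intro v hv hno
        refine hKsrc v hv fun a ha => ?_
        by_cases hae : (a, v) = e
        · have hfv : f = (f.1, v) := by
            rw [← hae] at hef2
            exact Prod.ext rfl hef2.symm
          apply hno f.1
          rw [Finset.mem_erase, ← hfv]
          exact ⟨fun h => hef h.symm, hf⟩
        · exact hno a (Finset.mem_erase.2 ⟨hae, ha⟩)
    have := hmin _ hgood
    rw [Finset.card_erase_of_mem he] at this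
    omega

/-- removing a top leaf -/
lemma Code.remove_leaf {C : V → Prop} {E : Finset (V × V)} {S : Finset V} {K : Finset (V × V)}
    {φ : V → Option (V × V)} (h : Code C E S K φ) {a v : V} (hv : v ∈ S) (hav : (a, v) ∈ K)
    (hin : ∀ x, (x, v) ∈ K → x = a) (hout : ∀ b, (v, b) ∉ K) :
    ∃ φ', Code C E (S.erase v) (K.erase (a, v)) φ' := by
  classical
  refine ⟨fun w => if φ w = some (a, v) then none else φ w, ?_, ?_, ?_, ?_, ?_⟩
  · intro k hk
    obtain ⟨hk1, hk2⟩ := Finset.mem_erase.1 hk
    have h1 := h.K_sub k hk2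
    refine ⟨Finset.mem_erase.2 ⟨?_, h1.1⟩, Finset.mem_erase.2 ⟨?_, h1.2.1⟩, h1.2.2⟩
    · intro hc
      apply hout k.2
      rw [← hc]; exact hk2
    · intro hc
      apply hk1
      have : k.1 = a := hin k.1 (by rw [← hc]; exact hk2)
      exact Prod.ext this hc
  · intro w k hk
    split_ifs at hk with hc
    have h1 := h.φ_in w k hk
    refine ⟨Finset.mem_erase.2 ⟨?_, h1.1⟩, fun hw => h1.2.1 (Finset.mem_of_mem_erase hw), h1.2.2⟩
    rintro rfl
    exact hc hk
  · intro k hk
    obtain ⟨hk1, hk2⟩ := Finset.mem_erase.1 hk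
    have : pth (fun w => if φ w = some (a, v) then none else φ w) k = pth φ k := by
      ext w
      rw [mem_pth, mem_pth]
      have : (if φ w = some (a, v) then none else φ w) = some k ↔ φ w = some k := by
        constructor
        · intro h'
          split_ifs at h' with hc
          exact h'
        · intro h'
          rw [if_neg]
          · exact h'
          · rw [h']
            intro hc
            exact hk1 (Option.some.inj hc)
      simp only [this]
    rw [this]
    exact h.edges k hk2
  · rw [Finset.card_erase_of_mem hav, Finset.card_erase_of_mem hv, h.card]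
    have := Finset.card_pos.2 ⟨v, hv⟩
    omega
  · intro u hu hno
    obtain ⟨hu1, hu2⟩ := Finset.mem_erase.1 hu
    refine h.src u hu2 fun x hx => hno x (Finset.mem_erase.2 ⟨?_, hx⟩)
    intro hc
    exact hu1 (congrArg Prod.snd hc)

/-- suppressing a vertex of degrees one and one -/
lemma Code.suppress {C : V → Prop} {E : Finset (V × V)} {S : Finset V} {K : Finset (V × V)}
    {φ : V → Option (V × V)} (h : Code C E S K φ) {a v b : V} (hv : v ∈ S) (hav : (a, v) ∈ K)
    (hvb : (v, b) ∈ K) (hin : ∀ x, (x, v) ∈ K → x = a) (hout : ∀ x, (v, x) ∈ K → x = b)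
    (hab : (a, b) ∉ K) :
    ∃ K' φ', Code C E (S.erase v) K' φ' := by
  classical
  have hlt1 := (h.K_sub _ hav).2.2
  have hlt2 := (h.K_sub _ hvb).2.2
  simp only at hlt1 hlt2
  have hne12 : (v, b) ≠ (a, v) := by
    intro hc
    have := congrArg Prod.fst hc
    simp only at this
    rw [this] at hlt1; exact lt_irrefl _ hlt1
  set φ' : V → Option (V × V) := fun w =>
    if w = v ∨ φ w = some (a, v) ∨ φ w = some (v, b) then some (a, b) else φ w with hφ'
  have hφ1 : ∀ w, (w = v ∨ φ w = some (a, v) ∨ φ w = some (v, b)) → φ' w = some (a, b) :=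
    fun w hw => if_pos hw
  have hφ2 : ∀ w, ¬ (w = v ∨ φ w = some (a, v) ∨ φ w = some (v, b)) → φ' w = φ w :=
    fun w hw => if_neg hw
  have hnab : ∀ w, φ w ≠ some (a, b) := fun w hw => hab (h.φ_in w _ hw).1
  refine ⟨insert (a, b) ((K.erase (a, v)).erase (v, b)), φ', ?_, ?_, ?_, ?_, ?_⟩
  · intro k hk
    rcases Finset.mem_insert.1 hk with rfl | hk
    · refine ⟨Finset.mem_erase.2 ⟨hlt1.ne, (h.K_sub _ hav).1⟩,
        Finset.mem_erase.2 ⟨hlt2.ne', (h.K_sub _ hvb).2.1⟩, hlt1.trans hlt2⟩
    · obtain ⟨hk1, hk⟩ := Finset.mem_erase.1 hk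
      obtain ⟨hk2, hk⟩ := Finset.mem_erase.1 hk
      have h1 := h.K_sub k hk
      refine ⟨Finset.mem_erase.2 ⟨?_, h1.1⟩, Finset.mem_erase.2 ⟨?_, h1.2.1⟩, h1.2.2⟩
      · intro hc
        apply hk1
        have : k.2 = b := hout k.2 (by rw [← hc]; exact hk)
        exact Prod.ext hc this
      · intro hc
        apply hk2
        have : k.1 = a := hin k.1 (by rw [← hc]; exact hk)
        exact Prod.ext this hc
  · intro w k hk
    by_cases hw : w = v ∨ φ w = some (a, v) ∨ φ w = some (v, b)
    · rw [hφ1 w hw] at hk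
      have hk' : (a, b) = k := Option.some.inj hk
      rw [← hk']
      refine ⟨Finset.mem_insert_self _ _, ?_, ?_⟩
      · rcases hw with rfl | hw | hw
        · exact Finset.notMem_erase _ _
        · exact fun hc => (h.φ_in w _ hw).2.1 (Finset.mem_of_mem_erase hc)
        · exact fun hc => (h.φ_in w _ hw).2.1 (Finset.mem_of_mem_erase hc)
      · rcases hw with rfl | hw | hw
        · exact ⟨hlt1, hlt2⟩
        · have := (h.φ_in w _ hw).2.2
          exact ⟨this.1, this.2.trans hlt2⟩
        · have := (h.φ_in w _ hw).2.2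
          exact ⟨hlt1.trans this.1, this.2⟩
    · rw [hφ2 w hw] at hk
      push Not at hw
      have h1 := h.φ_in w k hk
      refine ⟨?_, fun hc => h1.2.1 (Finset.mem_of_mem_erase hc), h1.2.2⟩
      apply Finset.mem_insert_of_mem
      rw [Finset.mem_erase, Finset.mem_erase]
      refine ⟨?_, ?_, h1.1⟩
      · rintro rfl; exact hw.2.2 hk
      · rintro rfl; exact hw.2.1 hk
  · intro k hk
    rcases Finset.mem_insert.1 hk with rfl | hk
    · have hp : pth φ' (a, b) = pth φ (a, v) ∪ pth φ (v, b) := by
        ext w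
        rw [Finset.mem_union, mem_pth, mem_pth, mem_pth]
        constructor
        · rintro (hw | hw | hw)
          · exact Or.inl (Or.inl hw)
          · exact Or.inr (Or.inr (Or.inl hw))
          · by_cases hw' : w = v ∨ φ w = some (a, v) ∨ φ w = some (v, b)
            · rcases hw' with hw' | hw' | hw'
              · exact Or.inl (Or.inr (Or.inl hw'))
              · exact Or.inl (Or.inr (Or.inr hw'))
              · exact Or.inr (Or.inr (Or.inr hw'))
            · rw [hφ2 w hw'] at hw
              exact absurd hw (hnab w)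
        · rintro ((hw | hw | hw) | (hw | hw | hw))
          · exact Or.inl hw
          · exact Or.inr (Or.inr (hφ1 w (Or.inl hw)))
          · exact Or.inr (Or.inr (hφ1 w (Or.inr (Or.inl hw))))
          · exact Or.inr (Or.inr (hφ1 w (Or.inl hw)))
          · exact Or.inr (Or.inl hw)
          · exact Or.inr (Or.inr (hφ1 w (Or.inr (Or.inr hw))))
      rw [hp]
      refine (cons_union (v := v) ?_ ?_ ?_ ?_).trans
        (Finset.union_subset (h.edges _ hav) (h.edges _ hvb))
      · rw [mem_pth]; exact Or.inr (Or.inl rfl)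
      · rw [mem_pth]; exact Or.inl rfl
      · intro w hw
        rw [mem_pth] at hw
        rcases hw with hw | hw | hw
        · rw [hw]; exact hlt1.le
        · rw [hw]
        · exact (h.φ_in w _ hw).2.2.2.le
      · intro w hw
        rw [mem_pth] at hw
        rcases hw with hw | hw | hw
        · rw [hw]
        · rw [hw]; exact hlt2.le
        · exact (h.φ_in w _ hw).2.2.1.le
    · obtain ⟨hk1, hk⟩ := Finset.mem_erase.1 hk
      obtain ⟨hk2, hk⟩ := Finset.mem_erase.1 hk
      have hkab : k ≠ (a, b) := by rintro rfl; exact hab hk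
      have : pth φ' k = pth φ k := by
        ext w
        rw [mem_pth, mem_pth]
        have : φ' w = some k ↔ φ w = some k := by
          constructor
          · intro h'
            by_cases hw' : w = v ∨ φ w = some (a, v) ∨ φ w = some (v, b)
            · rw [hφ1 w hw'] at h'
              exact absurd (Option.some.inj h').symm hkab
            · rwa [hφ2 w hw'] at h'
          · intro h'
            rw [hφ2 w]
            · exact h'
            · rintro (hc | hc | hc)
              · rw [hc] at h'
                exact (h.φ_in v _ h').2.1 hv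
              · rw [h'] at hc; exact hk2 (Option.some.inj hc)
              · rw [h'] at hc; exact hk1 (Option.some.inj hc)
        simp only [this]
      rw [this]
      exact h.edges k hk
  · have h1 : (a, b) ∉ (K.erase (a, v)).erase (v, b) := fun hc =>
      hab (Finset.mem_of_mem_erase (Finset.mem_of_mem_erase hc))
    have h2 : (v, b) ∈ K.erase (a, v) := Finset.mem_erase.2 ⟨hne12, hvb⟩
    rw [Finset.card_insert_of_notMem h1, Finset.card_erase_of_mem h2, Finset.card_erase_of_mem hav,
      Finset.card_erase_of_mem hv, h.card]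
    have h3 := Finset.card_pos.2 ⟨v, hv⟩
    omega
  · intro u hu hno
    obtain ⟨hu1, hu2⟩ := Finset.mem_erase.1 hu
    refine h.src u hu2 fun x hx => ?_
    by_cases hxb : (x, u) = (v, b)
    · have hub : u = b := congrArg Prod.snd hxb
      exact hno a (by rw [hub]; exact Finset.mem_insert_self _ _)
    · refine hno x (Finset.mem_insert_of_mem (Finset.mem_erase.2 ⟨hxb, Finset.mem_erase.2 ⟨?_, hx⟩⟩))
      intro hc
      exact hu1 (congrArg Prod.snd hc)

/-- a bad set gives a code most of whose special vertices are accounted for by sources -/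
theorem exists_small_code {C : V → Prop} [DecidablePred C] {E : Finset (V × V)}
    (hE : ∀ e ∈ E, e.1 < e.2) {S₀ : Finset V} (hS : IsBad C E S₀) :
    ∃ S K φ, Code C E S K φ ∧ 0 < S.card ∧ S.card ≤ 15 * (S.filter C).card := by
  classical
  -- minimal code
  have hne : ((Finset.univ : Finset (Finset V)).filter fun S => ∃ K φ, Code C E S K φ).Nonempty := by
    obtain ⟨S, K, φ, h⟩ := exists_code hE hS
    exact ⟨S, Finset.mem_filter.2 ⟨Finset.mem_univ _, K, φ, h⟩⟩
  obtain ⟨S, hSm, hmin⟩ := Finset.exists_min_image _ (fun S : Finset V => S.card) hne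
  obtain ⟨_, K, φ, h⟩ := Finset.mem_filter.1 hSm
  have hmin' : ∀ v ∈ S, ∀ K' φ', ¬ Code C E (S.erase v) K' φ' := by
    intro v hv K' φ' hc
    have := hmin (S.erase v) (Finset.mem_filter.2 ⟨Finset.mem_univ _, K', φ', hc⟩)
    rw [Finset.card_erase_of_mem hv] at this
    have := Finset.card_pos.2 ⟨v, hv⟩
    omega
  have hKpos : 0 < K.card := by rw [h.card]; omega
  have hSpos : 0 < S.card := by
    obtain ⟨k, hk⟩ := Finset.card_pos.1 hKpos
    exact Finset.card_pos.2 ⟨k.1, (h.K_sub k hk).1⟩
  refine ⟨S, K, φ, h, hSpos, ?_⟩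
  -- degrees
  set i : V → ℕ := fun v => (K.filter fun e => e.2 = v).card with hi
  set o : V → ℕ := fun v => (K.filter fun e => e.1 = v).card with ho
  have hisum : ∑ v ∈ S, i v = S.card + 1 := by
    rw [← h.card]
    exact (Finset.card_eq_sum_card_fiberwise (f := Prod.snd) (s := K) (t := S)
      (fun k hk => (h.K_sub k hk).2.1)).symm
  have hosum : ∑ v ∈ S, o v = S.card + 1 := by
    rw [← h.card]
    exact (Finset.card_eq_sum_card_fiberwise (f := Prod.fst) (s := K) (t := S)
      (fun k hk => (h.K_sub k hk).1)).symm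
  set S0 := S.filter fun v => i v = 0 with hS0
  set S2 := S.filter fun v => 2 ≤ i v with hS2
  set O0 := S.filter fun v => o v = 0 with hO0
  set B := S.filter fun v => 2 ≤ o v with hB
  set X := S.filter fun v => i v = 1 ∧ o v = 1 with hX
  -- |S2| ≤ |S0| + 1
  have e1 : S2.card ≤ S0.card + 1 := by
    have hpt : ∀ v ∈ S, 1 + (if 2 ≤ i v then 1 else 0) ≤ i v + (if i v = 0 then 1 else 0) := by
      intro v _
      split_ifs <;> omega
    have hs := Finset.sum_le_sum hpt
    rw [Finset.sum_add_distrib, Finset.sum_add_distrib, hisum, ← Finset.card_filter,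
      ← Finset.card_filter, Finset.sum_const, smul_eq_mul, mul_one] at hs
    rw [hS2, hS0]
    omega
  -- no top leaves
  have ha : ∀ v ∈ S, i v = 1 → o v ≠ 0 := by
    intro v hv hi1 ho0
    obtain ⟨e, he⟩ := Finset.card_eq_one.1 hi1
    have hem : e ∈ K.filter fun e => e.2 = v := by rw [he]; exact Finset.mem_singleton_self _
    obtain ⟨heK, hev⟩ := Finset.mem_filter.1 hem
    have hev' : e = (e.1, v) := Prod.ext rfl hev
    obtain ⟨φ', hc⟩ := h.remove_leaf (a := e.1) hv (by rw [← hev']; exact heK) (by
        intro x hx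
        have : (x, v) ∈ K.filter fun e => e.2 = v := Finset.mem_filter.2 ⟨hx, rfl⟩
        rw [he, Finset.mem_singleton] at this
        rw [← this]) (by
        intro b hb
        have : (v, b) ∈ K.filter fun e => e.1 = v := Finset.mem_filter.2 ⟨hb, rfl⟩
        rw [Finset.card_eq_zero.1 ho0] at this
        simp at this)
    exact hmin' v hv _ _ hc
  have e2 : O0.card ≤ S0.card + S2.card := by
    rw [← Finset.card_union_of_disjoint]
    · apply Finset.card_le_card
      intro v hv
      obtain ⟨hvS, hv0⟩ := Finset.mem_filter.1 hv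
      rw [Finset.mem_union, hS0, hS2, Finset.mem_filter, Finset.mem_filter]
      have := ha v hvS
      by_cases h0 : i v = 0
      · exact Or.inl ⟨hvS, h0⟩
      · right
        refine ⟨hvS, ?_⟩
        by_contra hlt
        exact this (by omega) hv0
    · rw [Finset.disjoint_left]
      intro v hv1 hv2
      have h1 := (Finset.mem_filter.1 hv1).2
      have h2 := (Finset.mem_filter.1 hv2).2
      omega
  -- |B| ≤ |O0| + 1 and the number of edges out of B
  have e3 : B.card ≤ O0.card + 1 := by
    have hpt : ∀ v ∈ S, 1 + (if 2 ≤ o v then 1 else 0) ≤ o v + (if o v = 0 then 1 else 0) := by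
      intro v _
      split_ifs <;> omega
    have hs := Finset.sum_le_sum hpt
    rw [Finset.sum_add_distrib, Finset.sum_add_distrib, hosum, ← Finset.card_filter,
      ← Finset.card_filter, Finset.sum_const, smul_eq_mul, mul_one] at hs
    rw [hB, hO0]
    omega
  have e4 : (K.filter fun e => e.1 ∈ B).card + S.card ≤ S.card + 1 + O0.card + B.card := by
    have hf : (K.filter fun e => e.1 ∈ B).card = ∑ v ∈ S, if 2 ≤ o v then o v else 0 := by
      rw [← Finset.sum_filter, ← hB]
      rw [Finset.card_eq_sum_card_fiberwise (f := Prod.fst) (s := K.filter fun e => e.1 ∈ B)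
        (t := B) (fun k hk => (Finset.mem_filter.1 hk).2)]
      apply Finset.sum_congr rfl
      intro v hv
      have hee : ((K.filter fun e => e.1 ∈ B).filter fun e => e.1 = v) =
          K.filter fun e => e.1 = v := by
        ext e
        simp only [Finset.mem_filter]
        constructor
        · rintro ⟨⟨h1, _⟩, h3⟩; exact ⟨h1, h3⟩
        · rintro ⟨h1, h3⟩; exact ⟨⟨h1, by rw [h3]; exact hv⟩, h3⟩
      rw [ho]
      simp only
      rw [← hee]
    have hpt : ∀ v ∈ S, (if 2 ≤ o v then o v else 0) + 1 ≤
        o v + (if o v = 0 then 1 else 0) + (if 2 ≤ o v then 1 else 0) := by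
      intro v _
      split_ifs <;> omega
    have hs := Finset.sum_le_sum hpt
    rw [Finset.sum_add_distrib, Finset.sum_add_distrib, Finset.sum_add_distrib, hosum,
      ← Finset.card_filter, ← Finset.card_filter, Finset.sum_const, smul_eq_mul, mul_one,
      ← hf] at hs
    rw [hB, hO0]
    exact hs
  -- X injects into the edges out of B
  have e5 : X.card ≤ (K.filter fun e => e.1 ∈ B).card := by
    apply Finset.card_le_card_of_surjOn (fun e => e.2)
    intro v hv
    rw [Finset.mem_coe] at hv
    obtain ⟨hvS, hi1, ho1⟩ := Finset.mem_filter.1 hv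
    obtain ⟨e, he⟩ := Finset.card_eq_one.1 hi1
    have hem : e ∈ K.filter fun e => e.2 = v := by rw [he]; exact Finset.mem_singleton_self _
    obtain ⟨heK, hev⟩ := Finset.mem_filter.1 hem
    have hev' : e = (e.1, v) := Prod.ext rfl hev
    obtain ⟨f, hf⟩ := Finset.card_eq_one.1 ho1
    have hfm : f ∈ K.filter fun e => e.1 = v := by rw [hf]; exact Finset.mem_singleton_self _
    obtain ⟨hfK, hfv⟩ := Finset.mem_filter.1 hfm
    have hfv' : f = (v, f.2) := Prod.ext hfv rfl
    have hab : (e.1, f.2) ∈ K := by
      by_contra hab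
      obtain ⟨K', φ', hc⟩ := h.suppress (a := e.1) (b := f.2) hvS (by rw [← hev']; exact heK)
        (by rw [← hfv']; exact hfK) (by
          intro x hx
          have : (x, v) ∈ K.filter fun e => e.2 = v := Finset.mem_filter.2 ⟨hx, rfl⟩
          rw [he, Finset.mem_singleton] at this
          rw [← this]) (by
          intro x hx
          have : (v, x) ∈ K.filter fun e => e.1 = v := Finset.mem_filter.2 ⟨hx, rfl⟩
          rw [hf, Finset.mem_singleton] at this
          rw [← this]) hab
      exact hmin' v hvS _ _ hc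
    refine ⟨e, ?_, hev⟩
    rw [Finset.mem_coe, Finset.mem_filter]
    refine ⟨heK, ?_⟩
    rw [hB, Finset.mem_filter]
    refine ⟨(h.K_sub e heK).1, ?_⟩
    have hvb : v < f.2 := by
      have := (h.K_sub f hfK).2.2
      rwa [hfv] at this
    have hsub : ({(e.1, v), (e.1, f.2)} : Finset (V × V)) ⊆ K.filter fun g => g.1 = e.1 := by
      intro g hg
      rw [Finset.mem_insert, Finset.mem_singleton] at hg
      rcases hg with rfl | rfl
      · exact Finset.mem_filter.2 ⟨by rw [← hev']; exact heK, rfl⟩
      · exact Finset.mem_filter.2 ⟨hab, rfl⟩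
    have hc2 : ({(e.1, v), (e.1, f.2)} : Finset (V × V)).card = 2 := by
      rw [Finset.card_pair]
      intro hc
      exact hvb.ne (congrArg Prod.snd hc)
    rw [← hc2]
    exact Finset.card_le_card hsub
  -- the cover
  have e6 : S.card ≤ S0.card + S2.card + X.card + B.card := by
    have hpt : ∀ v ∈ S, 1 ≤ (if i v = 0 then 1 else 0) + (if 2 ≤ i v then 1 else 0) +
        (if i v = 1 ∧ o v = 1 then 1 else 0) + (if 2 ≤ o v then 1 else 0) := by
      intro v hv
      have := ha v hv
      split_ifs <;> omega
    have hs := Finset.sum_le_sum hpt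
    rw [Finset.sum_add_distrib, Finset.sum_add_distrib, Finset.sum_add_distrib,
      ← Finset.card_filter, ← Finset.card_filter, ← Finset.card_filter, ← Finset.card_filter,
      Finset.sum_const, smul_eq_mul, mul_one] at hs
    exact hs
  -- a source exists
  have e7 : 0 < S0.card := by
    have hSne := Finset.card_pos.1 hSpos
    refine Finset.card_pos.2 ⟨S.min' hSne, ?_⟩
    rw [hS0, Finset.mem_filter]
    refine ⟨Finset.min'_mem _ _, ?_⟩
    rw [hi]
    simp only
    rw [Finset.card_eq_zero, Finset.filter_eq_empty_iff]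
    intro e he hc
    have h1 := h.K_sub e he
    have h2 := Finset.min'_le S e.1 h1.1
    rw [← hc] at h2
    exact absurd h1.2.2 (not_lt.2 h2)
  have e8 : S0.card ≤ (S.filter C).card := by
    apply Finset.card_le_card
    intro v hv
    obtain ⟨hvS, hv0⟩ := Finset.mem_filter.1 hv
    refine Finset.mem_filter.2 ⟨hvS, h.src v hvS fun a hav => ?_⟩
    have : (a, v) ∈ K.filter fun e => e.2 = v := Finset.mem_filter.2 ⟨hav, rfl⟩
    rw [Finset.card_eq_zero.1 hv0] at this
    simp at this
  omega

end Pool.Agent.W2helper76.RGO
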