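import Pool.Agent.W2helper76.RGO.Uni

set_option autoImplicit false

/-!
The deterministic bound: if no class is bad, the order embeds in a product of `6 M` chains.
-/

namespace Pool.Agent.W2helper76.RGO

open Relation

variable {V : Type*}

/-- `S` is a bad set for the class `C`: every vertex of `S` lies in `C` or has a lower neighbour
in `S`, and `S` spans more than `|S|` edges. -/
def IsBad [DecidableEq V] (C : V → Prop) (E : Finset (V × V)) (S : Finset V) : Prop :=
  (∀ v ∈ S, C v ∨ ∃ w ∈ S, (w, v) ∈ E) ∧ S.card + 1 ≤ (span E S).card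

/-- the up-closure of a class -/
def Up (C : V → Prop) (E : Finset (V × V)) (v : V) : Prop := ∃ x, C x ∧ Le (rel E) x v

lemma sparse_of_not_bad [Fintype V] [DecidableEq V] {C : V → Prop} {E : Finset (V × V)}
    (h : ∀ S, ¬ IsBad C E S) (S : Finset V) (hS : ∀ v ∈ S, Up C E v) :
    (span E S).card ≤ S.card := by
  classical
  by_contra hcon
  rw [not_le] at hcon
  have hne : ((Finset.univ : Finset (Finset V)).filter fun S => (∀ v ∈ S, Up C E v) ∧
      S.card + 1 ≤ (span E S).card).Nonempty :=
    ⟨S, by rw [Finset.mem_filter]; exact ⟨Finset.mem_univ _, hS, hcon⟩⟩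
  obtain ⟨T, hT, hmax⟩ := Finset.exists_max_image _ (fun S : Finset V => S.card) hne
  rw [Finset.mem_filter] at hT
  obtain ⟨_, hTU, hTc⟩ := hT
  refine h T ⟨fun v hv => ?_, hTc⟩
  by_contra hno
  push Not at hno
  obtain ⟨hvC, hno⟩ := hno
  obtain ⟨x, hx, hxv⟩ := hTU v hv
  rcases ReflTransGen.cases_tail hxv with hh | ⟨w, hw1, hw2⟩
  · rw [hh] at hvC; exact hvC hx
  · have hwT : w ∉ T := fun hw => hno w hw hw2
    have hgood : insert w T ∈ ((Finset.univ : Finset (Finset V)).filter fun S =>
        (∀ v ∈ S, Up C E v) ∧ S.card + 1 ≤ (span E S).card) := by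
      rw [Finset.mem_filter]
      refine ⟨Finset.mem_univ _, ?_, ?_⟩
      · intro u hu
        rcases Finset.mem_insert.1 hu with rfl | hu
        · exact ⟨x, hx, hw1⟩
        · exact hTU u hu
      · rw [Finset.card_insert_of_notMem hwT]
        have := card_span_insert hwT hw2 (Or.inr ⟨rfl, hv⟩)
        omega
    have := hmax _ hgood
    rw [Finset.card_insert_of_notMem hwT] at this
    omega

/-- a number for the component of a vertex -/
lemma exists_index [Fintype V] (r : V → V → Prop) :
    ∃ (ι : V → ℤ) (rep : V → V), (∀ v, Conn r (rep v) v) ∧ (∀ u v, Conn r u v → rep u = rep v) ∧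
      (∀ u v, ι (rep u) = ι (rep v) → rep u = rep v) := by
  classical
  let s : Setoid V := ⟨Conn r, fun _ => ReflTransGen.refl, fun h => conn_symm h,
    fun h1 h2 => h1.trans h2⟩
  refine ⟨fun v => ((Fintype.equivFin V v : ℕ) : ℤ), fun v => (Quotient.mk s v).out, ?_, ?_, ?_⟩
  · intro v
    exact Quotient.exact (Quotient.out_eq (Quotient.mk s v))
  · intro u v h
    have : Quotient.mk s u = Quotient.mk s v := Quotient.sound h
    simp only [this]
  · intro u v h
    simp only at h
    rw [Nat.cast_inj] at h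
    exact (Fintype.equivFin V).injective (Fin.ext h)

/-- the order on the up-closure of a class which is not bad embeds in six chains -/
lemma class_emb [Fintype V] [DecidableEq V] {C : V → Prop} {E : Finset (V × V)}
    (h : ∀ S, ¬ IsBad C E S) (hac : ∀ a b, (a, b) ∈ E → ¬ Le (rel E) b a) :
    ∃ f : Fin 6 → V → ℤ, (∀ k i j, (i, j) ∈ E → f k i ≤ f k j) ∧
      ∀ u v, C u → (∀ k, f k u ≤ f k v) → Le (rel E) u v := by
  classical
  set A : Finset V := Finset.univ.filter fun v => Up C E v with hA
  have hmA : ∀ v, v ∈ A ↔ Up C E v := by intro v; rw [hA]; simp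
  set EA := span E A with hEA
  have hsub : ∀ i j, rel EA i j → rel E i j := fun i j hij => (mem_span.1 hij).1
  have hsp : ∀ S : Finset V, (span EA S).card ≤ S.card := by
    intro S
    have h1 : span EA S ⊆ span E (S ∩ A) := by
      intro e he
      rw [mem_span, hEA, mem_span] at he
      rw [mem_span]
      exact ⟨he.1.1, Finset.mem_inter.2 ⟨he.2.1, he.1.2.1⟩, Finset.mem_inter.2 ⟨he.2.2, he.1.2.2⟩⟩
    calc (span EA S).card ≤ (span E (S ∩ A)).card := Finset.card_le_card h1
      _ ≤ (S ∩ A).card := sparse_of_not_bad h _ fun v hv =>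
          (hmA v).1 (Finset.mem_inter.1 hv).2
      _ ≤ S.card := Finset.card_le_card Finset.inter_subset_left
  have hacA : ∀ a b, (a, b) ∈ EA → ¬ Le (rel EA) b a := fun a b hab hle =>
    hac a b (mem_span.1 hab).1 (le_mono hsub hle)
  have hex := fun x => exists_emb_six hsp hacA x
  choose g hg using hex
  obtain ⟨ι, rep, hrep1, hrep2, hrep3⟩ := exists_index (rel EA)
  set sg : Fin 6 → ℤ := ![1, -1, 1, 1, 1, 1] with hsg
  have G : ∀ k : Fin 6, ∃ e : V → ℤ, ∀ u v, e u ≤ e v ↔
      toLex ((if u ∈ A then (1 : ℤ) else 0), toLex ((if u ∈ A then sg k * ι (rep u) else 0),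
        (if u ∈ A then g (rep u) k u else 0))) ≤
      toLex ((if v ∈ A then (1 : ℤ) else 0), toLex ((if v ∈ A then sg k * ι (rep v) else 0),
        (if v ∈ A then g (rep v) k v else 0))) := fun k => exists_rank _
  choose f hf using G
  refine ⟨f, ?_, ?_⟩
  · intro k i j hij
    rw [hf, Prod.Lex.toLex_le_toLex]
    by_cases hi : i ∈ A
    · have hj : j ∈ A := by
        rw [hmA] at hi ⊢
        obtain ⟨x, hx, hxi⟩ := hi
        exact ⟨x, hx, hxi.tail hij⟩
      right
      simp only [if_pos hi, if_pos hj, true_and]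
      have hijA : (i, j) ∈ EA := by rw [hEA, mem_span]; exact ⟨hij, hi, hj⟩
      have hr : rep i = rep j := hrep2 i j (ReflTransGen.single (Or.inl hijA))
      rw [Prod.Lex.toLex_le_toLex, ← hr]
      right
      exact ⟨rfl, (hg (rep i)).mono k i j (hrep1 i) hijA⟩
    · by_cases hj : j ∈ A
      · left
        simp only [if_neg hi, if_pos hj]
        norm_num
      · right
        simp only [if_neg hi, if_neg hj]
        exact ⟨trivial, le_refl _⟩
  · intro u v hu hk
    have huA : u ∈ A := by rw [hmA]; exact ⟨u, hu, ReflTransGen.refl⟩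
    have hvA : v ∈ A := by
      by_contra hv
      have := (hf 0 u v).1 (hk 0)
      rw [Prod.Lex.toLex_le_toLex] at this
      simp only [if_pos huA, if_neg hv] at this
      norm_num at this
    have hk' : ∀ k, sg k * ι (rep u) < sg k * ι (rep v) ∨
        (sg k * ι (rep u) = sg k * ι (rep v) ∧ g (rep u) k u ≤ g (rep v) k v) := by
      intro k
      have := (hf k u v).1 (hk k)
      rw [Prod.Lex.toLex_le_toLex] at this
      simp only [if_pos huA, if_pos hvA, lt_irrefl, false_or, true_and] at this
      rwa [Prod.Lex.toLex_le_toLex] at this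
    have h0 : ι (rep u) ≤ ι (rep v) := by
      have := hk' 0
      simp only [hsg, Matrix.cons_val_zero, one_mul] at this
      rcases this with h | ⟨h, _⟩
      · exact h.le
      · exact h.le
    have h1 : ι (rep v) ≤ ι (rep u) := by
      have := hk' 1
      simp only [hsg, Matrix.cons_val_one, Matrix.cons_val_zero, neg_mul, one_mul] at this
      rcases this with h | ⟨h, _⟩
      · linarith
      · linarith
    have hr : rep u = rep v := hrep3 u v (le_antisymm h0 h1)
    have hemb := (hg (rep u)).emb u v (hrep1 u) (by rw [hr]; exact hrep1 v) (fun k => by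
      rcases hk' k with h | ⟨_, h⟩
      · rw [hr] at h; exact absurd h (lt_irrefl _)
      · rw [← hr] at h; exact h)
    exact le_mono hsub hemb

/-- the deterministic bound -/
theorem det_bound [Fintype V] [DecidableEq V] {M : ℕ} (cls : V → Fin M) {E : Finset (V × V)}
    (h : ∀ j S, ¬ IsBad (fun v => cls v = j) E S)
    (hac : ∀ a b, (a, b) ∈ E → ¬ Le (rel E) b a) :
    ∃ f : Fin M × Fin 6 → V → ℤ, (∀ k i j, (i, j) ∈ E → f k i ≤ f k j) ∧
      ∀ u v, (∀ k, f k u ≤ f k v) → Le (rel E) u v := by
  have := fun j => class_emb (h j) hac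
  choose f hf1 hf2 using this
  exact ⟨fun k => f k.1 k.2, fun k i j hij => hf1 k.1 k.2 i j hij,
    fun u v hk => hf2 (cls u) u v rfl fun k => hk (cls u, k)⟩

end Pool.Agent.W2helper76.RGO
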