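import Pool.Agent.W2helper76.RGO.Prob

set_option autoImplicit false

/-!
With high probability the order generated by `G(n,c/n)` embeds in a bounded product of chains.
-/

namespace Pool.Agent.W2helper76.RGO

open Relation Finset Filter Topology

/-- the order of `E` embeds in a product of `D` chains -/
def Embeds (n D : ℕ) (E : Finset (Fin n × Fin n)) : Prop :=
  ∃ f : Fin D → Fin n → ℤ, (∀ k i j, (i, j) ∈ E → f k i ≤ f k j) ∧
      ∀ u v, (∀ k, f k u ≤ f k v) → Le (rel E) u v

lemma le_of_Le {n : ℕ} {E : Finset (Fin n × Fin n)} (hE : E ⊆ pairs n) {u v : Fin n}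
    (h : Le (rel E) u v) : u ≤ v := by
  induction h with
  | refl => exact le_refl _
  | tail _ h2 ih =>
    have := (Finset.mem_filter.1 (hE h2)).2
    exact ih.trans this.le

lemma acyclic {n : ℕ} {E : Finset (Fin n × Fin n)} (hE : E ⊆ pairs n) (a b : Fin n)
    (hab : (a, b) ∈ E) : ¬ Le (rel E) b a := by
  intro h
  have h1 := (Finset.mem_filter.1 (hE hab)).2
  have h2 := le_of_Le hE h
  exact absurd h2 (not_le.2 h1)

/-- residue classes are small -/
lemma card_class {n M : ℕ} (hM : 0 < M) (j : Fin M) :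
    ((Finset.univ : Finset (Fin n)).filter fun v : Fin n =>
      (⟨(v : ℕ) % M, Nat.mod_lt _ hM⟩ : Fin M) = j).card ≤ n / M + 1 := by
  classical
  have h1 : ((Finset.univ : Finset (Fin n)).filter fun v : Fin n =>
      (⟨(v : ℕ) % M, Nat.mod_lt _ hM⟩ : Fin M) = j).card ≤ (Finset.range (n / M + 1)).card := by
    apply Finset.card_le_card_of_injOn (fun v : Fin n => (v : ℕ) / M)
    · intro v hv
      rw [Finset.mem_coe, Finset.mem_range]
      have : (v : ℕ) / M ≤ n / M := Nat.div_le_div_right v.2.le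
      exact Nat.lt_succ_of_le this
    · intro v hv w hw hvw
      rw [Finset.mem_coe, Finset.mem_filter] at hv hw
      have h2 : (v : ℕ) % M = (w : ℕ) % M := by
        have := hv.2.trans hw.2.symm
        exact congrArg Fin.val this
      simp only at hvw
      apply Fin.ext
      rw [← Nat.div_add_mod (v : ℕ) M, ← Nat.div_add_mod (w : ℕ) M, h2, hvw]
  rwa [Finset.card_range] at h1

/-- the main estimate -/
theorem main_bound {c : ℝ} (hc : 0 ≤ c) : ∃ M : ℕ, 0 < M ∧ ∀ n : ℕ, M ≤ n → c ≤ n →
    1 - M * (c * Real.exp (c + 1)) / n ≤ prob n (c / n) (fun E => Embeds n (M * 6) E) := by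
  classical
  set θ : ℝ := 8 * c * Real.exp (c + 2) + 1 with hθ
  have hθ1 : 1 ≤ θ := by
    have : 0 ≤ 8 * c * Real.exp (c + 2) := by positivity
    linarith
  obtain ⟨M, hM⟩ := exists_nat_ge (2 * θ ^ 15)
  have hM0 : 0 < M := by
    have : (0:ℝ) < M := lt_of_lt_of_le (by positivity) hM
    exact_mod_cast this
  refine ⟨M, hM0, fun n hn hcn => ?_⟩
  have hn0 : 0 < n := lt_of_lt_of_le hM0 hn
  have hnr : (0:ℝ) < n := by exact_mod_cast hn0
  have hp0 : 0 ≤ c / n := by positivity
  have hp1 : c / n ≤ 1 := by rw [div_le_one hnr]; exact hcn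
  let cls : Fin n → Fin M := fun v => ⟨(v : ℕ) % M, Nat.mod_lt _ hM0⟩
  -- complement
  have hsplit : prob n (c / n) (fun E => Embeds n (M * 6) E) +
      prob n (c / n) (fun E => ¬ Embeds n (M * 6) E) = 1 := by
    rw [← sum_wt n (c / n)]
    unfold prob
    rw [← Finset.sum_add_distrib]
    refine Finset.sum_congr rfl fun E _ => ?_
    by_cases h : Embeds n (M * 6) E
    · rw [if_pos h, if_neg (not_not.2 h), add_zero]
    · rw [if_neg h, if_pos h, zero_add]
  have hbad : prob n (c / n) (fun E => ¬ Embeds n (M * 6) E) ≤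
      ∑ j : Fin M, prob n (c / n) (fun E => ∃ S, IsBad (fun v => cls v = j) E S) := by
    apply prob_union hp0 hp1 (Finset.univ : Finset (Fin M))
    intro E hE hQ
    by_contra hcon
    push Not at hcon
    apply hQ
    obtain ⟨f, hf1, hf2⟩ := det_bound cls (E := E) (fun j S => hcon j (Finset.mem_univ _) S)
      (acyclic hE)
    refine ⟨fun k => f (finProdFinEquiv.symm k), fun k i j hij => hf1 _ i j hij, fun u v hk => ?_⟩
    apply hf2
    intro k
    have := hk (finProdFinEquiv k)
    simp only [Equiv.symm_apply_apply] at this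
    exact this
  have heach : ∀ j : Fin M, prob n (c / n) (fun E => ∃ S, IsBad (fun v => cls v = j) E S) ≤
      c * Real.exp (c + 1) / n := by
    intro j
    apply prob_bad hn0 hc hcn _ hθ1 (by rw [hθ]; linarith)
    have h1 := card_class (n := n) hM0 j
    have h2 : (((Finset.univ : Finset (Fin n)).filter fun v => cls v = j).card : ℝ) ≤
        2 * (n / M : ℝ) := by
      have h3 : (((Finset.univ : Finset (Fin n)).filter fun v => cls v = j).card : ℝ) ≤
        ((n / M : ℕ) : ℝ) + 1 := by exact_mod_cast h1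
      have h4 : ((n / M : ℕ) : ℝ) ≤ (n : ℝ) / M := Nat.cast_div_le
      have h5 : (1:ℝ) ≤ (n : ℝ) / M := by
        rw [le_div_iff₀ (by exact_mod_cast hM0)]
        have : (M : ℝ) ≤ n := by exact_mod_cast hn
        linarith
      linarith
    have hMr : (0:ℝ) < M := by exact_mod_cast hM0
    calc (((Finset.univ : Finset (Fin n)).filter fun v => cls v = j).card : ℝ) * θ ^ 15
        ≤ 2 * (n / M : ℝ) * θ ^ 15 := mul_le_mul_of_nonneg_right h2 (by positivity)
      _ = (n / M : ℝ) * (2 * θ ^ 15) := by ring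
      _ ≤ (n / M : ℝ) * M := mul_le_mul_of_nonneg_left hM (by positivity)
      _ = n := by field_simp
  have hsum : ∑ j : Fin M, prob n (c / n) (fun E => ∃ S, IsBad (fun v => cls v = j) E S) ≤
      M * (c * Real.exp (c + 1)) / n := by
    calc ∑ j : Fin M, prob n (c / n) (fun E => ∃ S, IsBad (fun v => cls v = j) E S)
        ≤ ∑ _j : Fin M, c * Real.exp (c + 1) / n := Finset.sum_le_sum fun j _ => heach j
      _ = M * (c * Real.exp (c + 1)) / n := by
        rw [Finset.sum_const, Finset.card_univ, Fintype.card_fin, nsmul_eq_mul]; ring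
  linarith

end Pool.Agent.W2helper76.RGO
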