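import Pool.Agent.W2helper76.RGO.Code

set_option autoImplicit false

/-!
The union bound for bad sets in the random graph.
-/

namespace Pool.Agent.W2helper76.RGO

open Relation Finset

/-- the pairs `(i, j)` with `i < j` -/
def pairs (n : ℕ) : Finset (Fin n × Fin n) := Finset.univ.filter fun e => e.1 < e.2

/-- the weight of a graph -/
noncomputable def wt (n : ℕ) (p : ℝ) (E : Finset (Fin n × Fin n)) : ℝ :=
  p ^ E.card * (1 - p) ^ ((pairs n).card - E.card)

open Classical in
/-- the probability of an event for the random graph `G(n,p)` -/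
noncomputable def prob (n : ℕ) (p : ℝ) (Q : Finset (Fin n × Fin n) → Prop) : ℝ :=
  ∑ E ∈ (pairs n).powerset, if Q E then wt n p E else 0

lemma wt_nonneg {n : ℕ} {p : ℝ} (h0 : 0 ≤ p) (h1 : p ≤ 1) (E : Finset (Fin n × Fin n)) :
    0 ≤ wt n p E := mul_nonneg (pow_nonneg h0 _) (pow_nonneg (by linarith) _)

lemma sum_wt (n : ℕ) (p : ℝ) : ∑ E ∈ (pairs n).powerset, wt n p E = 1 := by
  unfold wt
  rw [Finset.sum_pow_mul_eq_add_pow]
  simp

lemma prob_nonneg {n : ℕ} {p : ℝ} (h0 : 0 ≤ p) (h1 : p ≤ 1) (Q : Finset (Fin n × Fin n) → Prop) :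
    0 ≤ prob n p Q := by
  classical
  refine Finset.sum_nonneg fun E _ => ?_
  split_ifs
  · exact wt_nonneg h0 h1 E
  · exact le_refl _

lemma prob_superset {n : ℕ} {p : ℝ} (h0 : 0 ≤ p) (F : Finset (Fin n × Fin n)) :
    prob n p (fun E => F ⊆ E) ≤ p ^ F.card := by
  classical
  by_cases hF : F ⊆ pairs n
  · have h := Finset.prod_add (fun _ : Fin n × Fin n => p)
      (fun e => if e ∈ F then 0 else 1 - p) (pairs n)
    have hl : ∏ e ∈ pairs n, (p + if e ∈ F then 0 else 1 - p) = p ^ F.card := by
      have : ∀ e ∈ pairs n, (p + if e ∈ F then 0 else 1 - p) = if e ∈ F then p else 1 := by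
        intro e _
        split_ifs <;> ring
      have hff : (pairs n).filter (fun e => e ∈ F) = F := by
        ext e
        rw [Finset.mem_filter]
        exact ⟨fun h => h.2, fun h => ⟨hF h, h⟩⟩
      rw [Finset.prod_congr rfl this, Finset.prod_ite, Finset.prod_const, Finset.prod_const_one,
        mul_one, hff]
    rw [← hl, h]
    apply le_of_eq
    unfold prob
    refine Finset.sum_congr rfl fun E hE => ?_
    rw [Finset.mem_powerset] at hE
    by_cases hFE : F ⊆ E
    · rw [if_pos hFE]
      unfold wt
      rw [Finset.prod_const]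
      congr 1
      have : ∀ e ∈ pairs n \ E, (if e ∈ F then (0:ℝ) else 1 - p) = 1 - p := by
        intro e he
        rw [if_neg]
        intro hc
        exact (Finset.mem_sdiff.1 he).2 (hFE hc)
      rw [Finset.prod_congr rfl this, Finset.prod_const, Finset.card_sdiff_of_subset hE]
    · rw [if_neg hFE]
      obtain ⟨e, he1, he2⟩ := Finset.not_subset.1 hFE
      symm
      apply mul_eq_zero_of_right
      apply Finset.prod_eq_zero (i := e)
      · exact Finset.mem_sdiff.2 ⟨hF he1, he2⟩
      · exact if_pos he1
  · have : prob n p (fun E => F ⊆ E) = 0 := by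
      unfold prob
      apply Finset.sum_eq_zero
      intro E hE
      rw [if_neg]
      intro hc
      exact hF (hc.trans (Finset.mem_powerset.1 hE))
    rw [this]
    exact pow_nonneg h0 _

lemma prob_union {n : ℕ} {p : ℝ} (h0 : 0 ≤ p) (h1 : p ≤ 1) {ι : Type*} (I : Finset ι)
    {Q : Finset (Fin n × Fin n) → Prop} {R : ι → Finset (Fin n × Fin n) → Prop}
    (h : ∀ E, E ⊆ pairs n → Q E → ∃ i ∈ I, R i E) :
    prob n p Q ≤ ∑ i ∈ I, prob n p (R i) := by
  classical
  unfold prob
  rw [Finset.sum_comm]
  refine Finset.sum_le_sum fun E hE => ?_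
  have hnn : ∀ i ∈ I, 0 ≤ (if R i E then wt n p E else 0) := by
    intro i _
    split_ifs
    · exact wt_nonneg h0 h1 E
    · exact le_refl _
  split_ifs with hQ
  · obtain ⟨i, hi, hR⟩ := h E (Finset.mem_powerset.1 hE) hQ
    calc wt n p E = (if R i E then wt n p E else 0) := by rw [if_pos hR]
      _ ≤ _ := Finset.single_le_sum (f := fun i => if R i E then wt n p E else 0) hnn hi
  · exact Finset.sum_nonneg hnn

/-- elementary symmetric functions -/
lemma esymm_le {α : Type*} [DecidableEq α] (s : Finset α) (w : α → ℝ) (hw : ∀ a ∈ s, 0 ≤ w a)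
    {W : ℝ} (hW : ∑ a ∈ s, w a ≤ W) (hW0 : 0 < W) {N : ℕ} (hN : 0 < N) :
    ∑ S ∈ s.powersetCard N, ∏ v ∈ S, w v ≤ (Real.exp 1 * W / N) ^ N := by
  set x : ℝ := N / W with hx
  have hNr : (0:ℝ) < N := by exact_mod_cast hN
  have hx0 : 0 < x := div_pos hNr hW0
  have h1 : x ^ N * ∑ S ∈ s.powersetCard N, ∏ v ∈ S, w v ≤ Real.exp N := by
    calc x ^ N * ∑ S ∈ s.powersetCard N, ∏ v ∈ S, w v
        = ∑ S ∈ s.powersetCard N, ∏ v ∈ S, (x * w v) := by
          rw [Finset.mul_sum]
          refine Finset.sum_congr rfl fun S hS => ?_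
          rw [Finset.prod_mul_distrib, Finset.prod_const, (Finset.mem_powersetCard.1 hS).2]
      _ ≤ ∑ S ∈ s.powerset, ∏ v ∈ S, (x * w v) := by
          apply Finset.sum_le_sum_of_subset_of_nonneg
          · intro S hS
            exact Finset.mem_powerset.2 (Finset.mem_powersetCard.1 hS).1
          · intro S hS _
            exact Finset.prod_nonneg fun v hv =>
              mul_nonneg hx0.le (hw v (Finset.mem_powerset.1 hS hv))
      _ = ∏ v ∈ s, (1 + x * w v) := by
          rw [Finset.prod_one_add]
      _ ≤ ∏ v ∈ s, Real.exp (x * w v) := by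
          apply Finset.prod_le_prod
          · intro v hv
            have := mul_nonneg hx0.le (hw v hv)
            linarith
          · intro v _
            have := Real.add_one_le_exp (x * w v)
            linarith
      _ = Real.exp (x * ∑ v ∈ s, w v) := by rw [← Real.exp_sum, Finset.mul_sum]
      _ ≤ Real.exp N := by
          apply Real.exp_le_exp.2
          calc x * ∑ v ∈ s, w v ≤ x * W := mul_le_mul_of_nonneg_left hW hx0.le
            _ = N := by rw [hx]; field_simp
  have h2 : Real.exp 1 * W / N = Real.exp 1 / x := by rw [hx]; field_simp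
  rw [h2, div_pow, ← Real.exp_nat_mul, mul_one, le_div_iff₀ (pow_pos hx0 _), mul_comm]
  exact h1

/-- the edge set of the subdivided skeleton -/
def decode {n : ℕ} (K : Finset (Fin n × Fin n)) (φ : Fin n → Option (Fin n × Fin n)) :
    Finset (Fin n × Fin n) := K.biUnion fun k => cons (pth φ k)

/-- admissible values of `φ` -/
def tt {n : ℕ} (S : Finset (Fin n)) (K : Finset (Fin n × Fin n)) (v : Fin n) :
    Finset (Option (Fin n × Fin n)) := if v ∈ S then {none} else Finset.insertNone K

lemma mem_tt {n : ℕ} {S : Finset (Fin n)} {K : Finset (Fin n × Fin n)} {v : Fin n}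
    {o : Option (Fin n × Fin n)} :
    o ∈ tt S K v ↔ ∀ k, o = some k → k ∈ K ∧ v ∉ S := by
  unfold tt
  split_ifs with h
  · rw [Finset.mem_singleton]
    constructor
    · rintro rfl k hk; simp at hk
    · intro h'
      cases o with
      | none => rfl
      | some k => exact absurd h (h' k rfl).2
  · rw [Finset.mem_insertNone]
    constructor
    · intro h' k hk
      exact ⟨h' k hk, h⟩
    · intro h' k hk
      exact (h' k hk).1

lemma card_decode_ge {n : ℕ} {S : Finset (Fin n)} {K : Finset (Fin n × Fin n)}
    {φ : Fin n → Option (Fin n × Fin n)} (hK : ∀ k ∈ K, k.1 ∈ S ∧ k.2 ∈ S ∧ k.1 < k.2)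
    (hφ : ∀ v, φ v ∈ tt S K v) :
    K.card + (Finset.univ.filter fun v => φ v ≠ none).card ≤ (decode K φ).card := by
  classical
  have hφ' : ∀ v k, φ v = some k → k ∈ K ∧ v ∉ S := fun v => mem_tt.1 (hφ v)
  unfold decode
  rw [Finset.card_biUnion]
  · -- sizes
    have hsz : ∀ k ∈ K, (Finset.univ.filter fun v => φ v = some k).card + 1 ≤
        (cons (pth φ k)).card := by
      intro k hk
      have h1 := card_cons_ge (pth φ k)
      have h2 := hK k hk
      have h3 : (pth φ k).card = (Finset.univ.filter fun v => φ v = some k).card + 2 := by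
        unfold pth
        rw [Finset.card_insert_of_notMem, Finset.card_insert_of_notMem]
        · rw [Finset.mem_filter]
          exact fun h => (hφ' _ _ h.2).2 h2.2.1
        · rw [Finset.mem_insert, Finset.mem_filter]
          rintro (h | h)
          · exact h2.2.2.ne h
          · exact (hφ' _ _ h.2).2 h2.1
      omega
    have hsum : ∑ k ∈ K, (Finset.univ.filter fun v => φ v = some k).card =
        (Finset.univ.filter fun v => φ v ≠ none).card := by
      rw [← Finset.card_biUnion]
      · congr 1
        ext v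
        rw [Finset.mem_biUnion, Finset.mem_filter]
        constructor
        · rintro ⟨k, _, hk⟩
          rw [Finset.mem_filter] at hk
          exact ⟨Finset.mem_univ _, by rw [hk.2]; simp⟩
        · rintro ⟨_, hv⟩
          obtain ⟨k, hk⟩ := Option.ne_none_iff_exists'.1 hv
          exact ⟨k, (hφ' v k hk).1, Finset.mem_filter.2 ⟨Finset.mem_univ _, hk⟩⟩
      · intro k _ k' _ hkk'
        rw [Function.onFun, Finset.disjoint_left]
        intro v hv hv'
        rw [Finset.mem_filter] at hv hv'
        rw [hv.2] at hv'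
        exact hkk' (Option.some.inj hv'.2)
    calc K.card + (Finset.univ.filter fun v => φ v ≠ none).card
        = ∑ k ∈ K, ((Finset.univ.filter fun v => φ v = some k).card + 1) := by
          rw [Finset.sum_add_distrib, hsum, Finset.sum_const, smul_eq_mul, mul_one, add_comm]
      _ ≤ _ := Finset.sum_le_sum hsz
  · intro k hk k' hk' hkk'
    rw [Function.onFun, Finset.disjoint_left]
    intro e he he'
    rw [mem_cons, mem_pth, mem_pth] at he he'
    have h2 := hK k hk
    have h2' := hK k' hk'
    obtain ⟨⟨ha, hb⟩, hlt, _⟩ := he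
    obtain ⟨⟨ha', hb'⟩, _, _⟩ := he'
    -- a vertex outside S determines k
    have hout : ∀ v, φ v = some k → (v = k'.1 ∨ v = k'.2 ∨ φ v = some k') → False := by
      rintro v hv (h | h | h)
      · exact (hφ' _ _ hv).2 (h ▸ h2'.1)
      · exact (hφ' _ _ hv).2 (h ▸ h2'.2.1)
      · rw [hv] at h; exact hkk' (Option.some.inj h)
    have hout' : ∀ v, φ v = some k' → (v = k.1 ∨ v = k.2 ∨ φ v = some k) → False := by
      rintro v hv (h | h | h)
      · exact (hφ' _ _ hv).2 (h ▸ h2.1)
      · exact (hφ' _ _ hv).2 (h ▸ h2.2.1)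
      · rw [hv] at h; exact hkk' (Option.some.inj h).symm
    have a1 : e.1 = k.1 ∨ e.1 = k.2 := by
      rcases ha with h | h | h
      · exact Or.inl h
      · exact Or.inr h
      · exact (hout _ h ha').elim
    have b1 : e.2 = k.1 ∨ e.2 = k.2 := by
      rcases hb with h | h | h
      · exact Or.inl h
      · exact Or.inr h
      · exact (hout _ h hb').elim
    have a2 : e.1 = k'.1 ∨ e.1 = k'.2 := by
      rcases ha' with h | h | h
      · exact Or.inl h
      · exact Or.inr h
      · exact (hout' _ h ha).elim
    have b2 : e.2 = k'.1 ∨ e.2 = k'.2 := by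
      rcases hb' with h | h | h
      · exact Or.inl h
      · exact Or.inr h
      · exact (hout' _ h hb).elim
    have hek : e = k := by
      rcases a1 with ha | ha <;> rcases b1 with hb | hb
      · rw [ha, hb] at hlt; exact absurd hlt (lt_irrefl _)
      · exact Prod.ext ha hb
      · rw [ha, hb] at hlt; exact absurd (hlt.trans h2.2.2) (lt_irrefl _)
      · rw [ha, hb] at hlt; exact absurd hlt (lt_irrefl _)
    have hek' : e = k' := by
      rcases a2 with ha | ha <;> rcases b2 with hb | hb
      · rw [ha, hb] at hlt; exact absurd hlt (lt_irrefl _)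
      · exact Prod.ext ha hb
      · rw [ha, hb] at hlt; exact absurd (hlt.trans h2'.2.2) (lt_irrefl _)
      · rw [ha, hb] at hlt; exact absurd hlt (lt_irrefl _)
    exact hkk' (hek.symm.trans hek')

/-- the skeletons on `S` -/
def skel {n : ℕ} (S : Finset (Fin n)) : Finset (Finset (Fin n × Fin n)) :=
  ((S ×ˢ S).filter fun e => e.1 < e.2).powersetCard (S.card + 1)

/-- the sum over the assignments -/
lemma sum_phi_le {n : ℕ} {p : ℝ} (h0 : 0 ≤ p) (S : Finset (Fin n)) (K : Finset (Fin n × Fin n)) :
    ∑ φ ∈ Fintype.piFinset (tt S K), p ^ (Finset.univ.filter fun v => φ v ≠ none).card ≤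
      (1 + p * K.card) ^ n := by
  classical
  have h1 : ∀ φ ∈ Fintype.piFinset (tt S K),
      p ^ (Finset.univ.filter fun v => φ v ≠ none).card =
        ∏ v, (if φ v ≠ none then p else 1) := by
    intro φ _
    rw [Finset.prod_ite, Finset.prod_const, Finset.prod_const_one, mul_one]
  rw [Finset.sum_congr rfl h1, ← Finset.prod_univ_sum (tt S K)
    (fun _ o => if o ≠ none then p else (1:ℝ))]
  calc ∏ v, ∑ o ∈ tt S K v, (if o ≠ none then p else (1:ℝ))
      ≤ ∏ _v : Fin n, (1 + p * K.card) := by
        apply Finset.prod_le_prod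
        · intro v _
          refine Finset.sum_nonneg fun o _ => ?_
          split_ifs <;> linarith
        · intro v _
          unfold tt
          have hK0 : 0 ≤ p * (K.card : ℝ) := mul_nonneg h0 (Nat.cast_nonneg _)
          split_ifs with hv
          · simp only [Finset.sum_singleton, ne_eq, not_true_eq_false, if_false]
            linarith
          · rw [Finset.sum_insertNone]
            simp only [ne_eq, not_true_eq_false, if_false, reduceCtorEq, not_false_eq_true,
              if_true, Finset.sum_const, nsmul_eq_mul]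
            linarith
    _ = (1 + p * K.card) ^ n := by
        rw [Finset.prod_const, Finset.card_univ, Fintype.card_fin]

/-- the union bound over codes -/
lemma prob_bad_le {n : ℕ} {p : ℝ} (h0 : 0 ≤ p) (h1 : p ≤ 1) (C : Fin n → Prop)
    [DecidablePred C] :
    prob n p (fun E => ∃ S, IsBad C E S) ≤
      ∑ S ∈ (Finset.univ : Finset (Finset (Fin n))).filter
          (fun S => 0 < S.card ∧ S.card ≤ 15 * (S.filter C).card),
        ∑ _K ∈ skel S, p ^ (S.card + 1) * (1 + p * (S.card + 1 : ℕ)) ^ n := by
  classical
  set I0 := (Finset.univ : Finset (Finset (Fin n))).filter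
          (fun S => 0 < S.card ∧ S.card ≤ 15 * (S.filter C).card) with hI0
  set I : Finset ((_ : Finset (Fin n)) × (_ : Finset (Fin n × Fin n)) ×
      (Fin n → Option (Fin n × Fin n))) :=
    I0.sigma fun S => (skel S).sigma fun K => Fintype.piFinset (tt S K) with hI
  have hunion := prob_union (n := n) (p := p) h0 h1 I
    (Q := fun E => ∃ S, IsBad C E S) (R := fun i E => decode i.2.1 i.2.2 ⊆ E) (by
      intro E hE hQ
      obtain ⟨S₀, hS₀⟩ := hQ
      have hE' : ∀ e ∈ E, e.1 < e.2 := fun e he => (Finset.mem_filter.1 (hE he)).2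
      obtain ⟨S, K, φ, hc, hpos, hle⟩ := exists_small_code hE' hS₀
      refine ⟨⟨S, ⟨K, φ⟩⟩, ?_, ?_⟩
      · rw [hI, Finset.mem_sigma, Finset.mem_sigma]
        refine ⟨Finset.mem_filter.2 ⟨Finset.mem_univ _, hpos, hle⟩, ?_, ?_⟩
        · simp only [skel]
          rw [Finset.mem_powersetCard]
          refine ⟨?_, hc.card⟩
          intro k hk
          have := hc.K_sub k hk
          exact Finset.mem_filter.2 ⟨Finset.mem_product.2 ⟨this.1, this.2.1⟩, this.2.2⟩
        · rw [Fintype.mem_piFinset]
          intro v
          rw [mem_tt]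
          intro k hk
          have := hc.φ_in v k hk
          exact ⟨this.1, this.2.1⟩
      · simp only [decode]
        rw [Finset.biUnion_subset]
        exact hc.edges)
  refine hunion.trans ?_
  rw [hI, Finset.sum_sigma]
  refine Finset.sum_le_sum fun S hS => ?_
  rw [Finset.sum_sigma]
  refine Finset.sum_le_sum fun K hK => ?_
  simp only
  have hK' := Finset.mem_powersetCard.1 hK
  have hKs : ∀ k ∈ K, k.1 ∈ S ∧ k.2 ∈ S ∧ k.1 < k.2 := by
    intro k hk
    have := Finset.mem_filter.1 (hK'.1 hk)
    have h2 := Finset.mem_product.1 this.1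
    exact ⟨h2.1, h2.2, this.2⟩
  calc ∑ φ ∈ Fintype.piFinset (tt S K), prob n p (fun E => decode K φ ⊆ E)
      ≤ ∑ φ ∈ Fintype.piFinset (tt S K),
          p ^ (S.card + 1) * p ^ (Finset.univ.filter fun v => φ v ≠ none).card := by
        refine Finset.sum_le_sum fun φ hφ => ?_
        refine (prob_superset h0 _).trans ?_
        rw [← pow_add]
        apply pow_le_pow_of_le_one h0 h1
        rw [← hK'.2]
        exact card_decode_ge hKs (Fintype.mem_piFinset.1 hφ)
    _ = p ^ (S.card + 1) * ∑ φ ∈ Fintype.piFinset (tt S K),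
          p ^ (Finset.univ.filter fun v => φ v ≠ none).card := by rw [Finset.mul_sum]
    _ ≤ p ^ (S.card + 1) * (1 + p * (S.card + 1 : ℕ)) ^ n := by
        apply mul_le_mul_of_nonneg_left _ (pow_nonneg h0 _)
        have := sum_phi_le h0 S K
        rwa [hK'.2] at this

lemma card_skel_le {n : ℕ} (S : Finset (Fin n)) (hS : 0 < S.card) :
    ((skel S).card : ℝ) ≤ (Real.exp 1 * S.card) ^ (S.card + 1) := by
  classical
  have h := esymm_le ((S ×ˢ S).filter fun e => e.1 < e.2) (fun _ => (1:ℝ))
    (fun _ _ => zero_le_one) (W := (S.card : ℝ) ^ 2) (by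
      rw [Finset.sum_const, nsmul_eq_mul, mul_one]
      have : (((S ×ˢ S).filter fun e => e.1 < e.2).card : ℝ) ≤ ((S ×ˢ S).card : ℝ) := by
        exact_mod_cast Finset.card_filter_le _ _
      rw [Finset.card_product] at this
      push_cast at this
      nlinarith) (by positivity) (N := S.card + 1) (by omega)
  simp only [Finset.prod_const_one, Finset.sum_const, nsmul_eq_mul, mul_one] at h
  refine h.trans ?_
  apply pow_le_pow_left₀ (by positivity)
  rw [div_le_iff₀ (by positivity)]
  push_cast
  have he := Real.exp_pos 1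
  have hs : (0:ℝ) ≤ S.card := by positivity
  nlinarith [mul_nonneg he.le hs]

/-- the number of candidates for the set of special vertices -/
lemma card_S_le {n : ℕ} (hn : 0 < n) (C : Fin n → Prop) [DecidablePred C] {θ : ℝ} (hθ : 1 ≤ θ)
    (hC : ((Finset.univ.filter C).card : ℝ) * θ ^ 15 ≤ n) {N : ℕ} (hN : 0 < N) :
    ((((Finset.univ : Finset (Fin n)).powersetCard N).filter
      (fun S => S.card ≤ 15 * (S.filter C).card)).card : ℝ) ≤
      (Real.exp 1 * (2 * n) / N) ^ N / θ ^ N := by
  classical
  have hθ0 : 0 < θ := by linarith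
  have h := esymm_le (Finset.univ : Finset (Fin n)) (fun v => if C v then θ ^ 15 else 1)
    (fun v _ => by split_ifs <;> positivity) (W := 2 * n) (by
      rw [Finset.sum_ite, Finset.sum_const, Finset.sum_const, nsmul_eq_mul, nsmul_eq_mul, mul_one]
      have : ((Finset.univ.filter fun v => ¬ C v).card : ℝ) ≤ n := by
        have h2 := Finset.card_filter_le (Finset.univ : Finset (Fin n)) (fun v => ¬ C v)
        rw [Finset.card_univ, Fintype.card_fin] at h2
        exact_mod_cast h2
      linarith) (by
        have : (0:ℝ) < n := by exact_mod_cast hn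
        linarith) hN
  rw [le_div_iff₀ (by positivity)]
  refine le_trans ?_ h
  rw [Finset.card_eq_sum_ones, Nat.cast_sum, Finset.sum_mul]
  calc ∑ S ∈ ((Finset.univ : Finset (Fin n)).powersetCard N).filter
        (fun S => S.card ≤ 15 * (S.filter C).card), ((1:ℕ):ℝ) * θ ^ N
      ≤ ∑ S ∈ ((Finset.univ : Finset (Fin n)).powersetCard N).filter
        (fun S => S.card ≤ 15 * (S.filter C).card), ∏ v ∈ S, (if C v then θ ^ 15 else 1) := by
        refine Finset.sum_le_sum fun S hS => ?_
        obtain ⟨h1, h2⟩ := Finset.mem_filter.1 hS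
        rw [Nat.cast_one, one_mul, Finset.prod_ite, Finset.prod_const, Finset.prod_const_one,
          mul_one, ← pow_mul]
        apply pow_le_pow_right₀ hθ
        rw [← (Finset.mem_powersetCard.1 h1).2]
        exact h2
    _ ≤ _ := by
        apply Finset.sum_le_sum_of_subset_of_nonneg (Finset.filter_subset _ _)
        intro S _ _
        refine Finset.prod_nonneg fun v _ => ?_
        split_ifs <;> positivity

/-- the probability of a bad set for one class is `O(1/n)` -/
theorem prob_bad {n : ℕ} (hn : 0 < n) {c : ℝ} (hc : 0 ≤ c) (hcn : c ≤ n) (C : Fin n → Prop)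
    [DecidablePred C] {θ : ℝ} (hθ : 1 ≤ θ) (hθc : 8 * c * Real.exp (c + 2) ≤ θ)
    (hC : ((Finset.univ.filter C).card : ℝ) * θ ^ 15 ≤ n) :
    prob n (c / n) (fun E => ∃ S, IsBad C E S) ≤ c * Real.exp (c + 1) / n := by
  classical
  have hnr : (0:ℝ) < n := by exact_mod_cast hn
  have hp0 : 0 ≤ c / n := by positivity
  have hp1 : c / n ≤ 1 := by rw [div_le_one hnr]; exact hcn
  have hθ0 : 0 < θ := by linarith
  refine (prob_bad_le hp0 hp1 C).trans ?_
  -- group by the size
  have hgroup : (Finset.univ : Finset (Finset (Fin n))).filter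
          (fun S => 0 < S.card ∧ S.card ≤ 15 * (S.filter C).card) =
      (Finset.range (n + 1)).biUnion (fun N => (((Finset.univ : Finset (Fin n)).powersetCard N).filter
      (fun S => 0 < S.card ∧ S.card ≤ 15 * (S.filter C).card))) := by
    ext S
    simp only [Finset.mem_filter, Finset.mem_biUnion, Finset.mem_univ, true_and,
      Finset.mem_powersetCard, Finset.subset_univ, Finset.mem_range]
    constructor
    · intro h
      refine ⟨S.card, ?_, rfl, h⟩
      have := Finset.card_le_univ S
      rw [Fintype.card_fin] at this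
      omega
    · rintro ⟨N, _, _, h⟩
      exact h
  rw [hgroup, Finset.sum_biUnion]
  swap
  · intro N _ N' _ hNN'
    rw [Function.onFun, Finset.disjoint_left]
    intro S hS hS'
    have h1 := (Finset.mem_powersetCard.1 (Finset.mem_filter.1 hS).1).2
    have h2 := (Finset.mem_powersetCard.1 (Finset.mem_filter.1 hS').1).2
    exact hNN' (h1.symm.trans h2)
  -- each size
  have hterm : ∀ N ∈ Finset.range (n + 1),
      ∑ S ∈ ((Finset.univ : Finset (Fin n)).powersetCard N).filter
          (fun S => 0 < S.card ∧ S.card ≤ 15 * (S.filter C).card),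
        ∑ _K ∈ skel S, (c / n) ^ (S.card + 1) * (1 + (c / n) * (S.card + 1 : ℕ)) ^ n ≤
      c * Real.exp (c + 1) / n * (if N = 0 then 0 else (1 / 2) ^ N) := by
    intro N _
    rcases Nat.eq_zero_or_pos N with rfl | hN
    · rw [if_pos rfl, mul_zero]
      apply le_of_eq
      apply Finset.sum_eq_zero
      intro S hS
      obtain ⟨h1, h2, _⟩ := Finset.mem_filter.1 hS
      have := (Finset.mem_powersetCard.1 h1).2
      omega
    · rw [if_neg (by omega)]
      have hNr : (0:ℝ) < N := by exact_mod_cast hN
      -- bound of the inner sum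
      have hexp : ∀ m : ℕ, (1 + (c / n) * (m : ℝ)) ^ n ≤ Real.exp (c * m) := by
        intro m
        calc (1 + (c / n) * (m : ℝ)) ^ n ≤ (Real.exp ((c / n) * m)) ^ n := by
              apply pow_le_pow_left₀ (by positivity)
              have := Real.add_one_le_exp ((c / n) * (m:ℝ))
              linarith
          _ = Real.exp (c * m) := by
              rw [← Real.exp_nat_mul]
              congr 1
              field_simp
      calc ∑ S ∈ ((Finset.univ : Finset (Fin n)).powersetCard N).filter
            (fun S => 0 < S.card ∧ S.card ≤ 15 * (S.filter C).card),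
          ∑ _K ∈ skel S, (c / n) ^ (S.card + 1) * (1 + (c / n) * (S.card + 1 : ℕ)) ^ n
          ≤ ∑ S ∈ ((Finset.univ : Finset (Fin n)).powersetCard N).filter
            (fun S => 0 < S.card ∧ S.card ≤ 15 * (S.filter C).card),
            (Real.exp 1 * N) ^ (N + 1) * ((c / n) ^ (N + 1) * Real.exp (c * (N + 1 : ℕ))) := by
            refine Finset.sum_le_sum fun S hS => ?_
            obtain ⟨h1, h2, _⟩ := Finset.mem_filter.1 hS
            have hSN := (Finset.mem_powersetCard.1 h1).2
            rw [Finset.sum_const, nsmul_eq_mul]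
            have hsk := card_skel_le S h2
            rw [hSN] at hsk ⊢
            apply mul_le_mul hsk _ (by positivity) (by positivity)
            apply mul_le_mul_of_nonneg_left (hexp (N + 1)) (by positivity)
        _ = ((((Finset.univ : Finset (Fin n)).powersetCard N).filter
            (fun S => 0 < S.card ∧ S.card ≤ 15 * (S.filter C).card)).card : ℝ) *
            ((Real.exp 1 * N) ^ (N + 1) * ((c / n) ^ (N + 1) * Real.exp (c * (N + 1 : ℕ)))) := by
            rw [Finset.sum_const, nsmul_eq_mul]
        _ ≤ ((Real.exp 1 * (2 * n) / N) ^ N / θ ^ N) *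
            ((Real.exp 1 * N) ^ (N + 1) * ((c / n) ^ (N + 1) * Real.exp (c * (N + 1 : ℕ)))) := by
            apply mul_le_mul_of_nonneg_right _ (by positivity)
            refine le_trans ?_ (card_S_le hn C hθ hC hN)
            have : (((Finset.univ : Finset (Fin n)).powersetCard N).filter
              (fun S => 0 < S.card ∧ S.card ≤ 15 * (S.filter C).card)).card ≤
              (((Finset.univ : Finset (Fin n)).powersetCard N).filter
              (fun S => S.card ≤ 15 * (S.filter C).card)).card := by
              apply Finset.card_le_card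
              intro S hS
              obtain ⟨h1, _, h3⟩ := Finset.mem_filter.1 hS
              exact Finset.mem_filter.2 ⟨h1, h3⟩
            exact_mod_cast this
        _ = (c * Real.exp (c + 1) / n) * (N * (2 * c * Real.exp (c + 2) / θ) ^ N) := by
            have hc1 : Real.exp (c + 1) = Real.exp c * Real.exp 1 := Real.exp_add _ _
            have hc2 : Real.exp (c + 2) = Real.exp c * (Real.exp 1 * Real.exp 1) := by
              rw [← Real.exp_add, ← Real.exp_add]; norm_num
            have hc3 : Real.exp (c * (N + 1 : ℕ)) = Real.exp c ^ (N + 1) := by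
              rw [← Real.exp_nat_mul]; congr 1; ring
            rw [hc1, hc2, hc3]
            have e1 : (Real.exp 1 * (2 * n) / N) ^ N * (Real.exp 1 * N) ^ (N + 1) *
                (c / n) ^ (N + 1) = (Real.exp 1 * Real.exp 1 * 2 * c) ^ N *
                  (Real.exp 1 * N * c / n) := by
              rw [pow_succ (Real.exp 1 * N), pow_succ (c / (n:ℝ))]
              have : (Real.exp 1 * (2 * n) / N) ^ N * ((Real.exp 1 * N) ^ N * (Real.exp 1 * N)) *
                ((c / n) ^ N * (c / n)) = ((Real.exp 1 * (2 * n) / N) * (Real.exp 1 * N) *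
                  (c / n)) ^ N * ((Real.exp 1 * N) * (c / n)) := by
                rw [mul_pow, mul_pow]; ring
              rw [this]
              congr 1
              · congr 1
                field_simp
              · ring
            calc (Real.exp 1 * (2 * n) / N) ^ N / θ ^ N * ((Real.exp 1 * N) ^ (N + 1) *
                  ((c / n) ^ (N + 1) * Real.exp c ^ (N + 1)))
                = ((Real.exp 1 * (2 * n) / N) ^ N * (Real.exp 1 * N) ^ (N + 1) *
                (c / n) ^ (N + 1)) * Real.exp c ^ (N + 1) / θ ^ N := by ring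
              _ = (Real.exp 1 * Real.exp 1 * 2 * c) ^ N *
                  (Real.exp 1 * N * c / n) * Real.exp c ^ (N + 1) / θ ^ N := by rw [e1]
              _ = _ := by
                rw [div_pow, pow_succ]
                have : (2 * c * (Real.exp c * (Real.exp 1 * Real.exp 1))) ^ N =
                    (Real.exp 1 * Real.exp 1 * 2 * c) ^ N * Real.exp c ^ N := by
                  rw [← mul_pow]; congr 1; ring
                rw [this]
                ring
        _ ≤ (c * Real.exp (c + 1) / n) * (1 / 2) ^ N := by
            apply mul_le_mul_of_nonneg_left _ (by positivity)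
            have hq : 2 * c * Real.exp (c + 2) / θ ≤ 1 / 4 := by
              rw [div_le_iff₀ hθ0]; linarith
            have hq0 : 0 ≤ 2 * c * Real.exp (c + 2) / θ := by positivity
            have hN2 : (N : ℝ) ≤ 2 ^ N := by
              have := Nat.lt_two_pow_self (n := N)
              exact_mod_cast this.le
            calc (N:ℝ) * (2 * c * Real.exp (c + 2) / θ) ^ N ≤ 2 ^ N * (1 / 4) ^ N := by
                  apply mul_le_mul hN2 (pow_le_pow_left₀ hq0 hq _) (by positivity) (by positivity)
              _ = (1 / 2) ^ N := by rw [← mul_pow]; norm_num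
  refine (Finset.sum_le_sum hterm).trans ?_
  rw [← Finset.mul_sum]
  have hgeo : ∑ N ∈ Finset.range (n + 1), (if N = 0 then (0:ℝ) else (1 / 2) ^ N) ≤ 1 := by
    rw [Finset.sum_range_succ']
    simp only [Nat.add_eq_zero_iff, one_ne_zero, and_false, if_false, if_true, add_zero]
    have h := Summable.sum_le_tsum (f := fun N : ℕ => ((1:ℝ) / 2) ^ (N + 1)) (Finset.range n)
      (fun _ _ => by positivity) (by
        have := summable_geometric_of_lt_one (r := (1:ℝ)/2) (by norm_num) (by norm_num)
        exact (summable_nat_add_iff 1).2 this)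
    refine h.trans (le_of_eq ?_)
    simp_rw [pow_succ]
    rw [tsum_mul_right, tsum_geometric_of_lt_one (by norm_num) (by norm_num)]
    norm_num
  calc c * Real.exp (c + 1) / n * ∑ N ∈ Finset.range (n + 1), (if N = 0 then (0:ℝ) else (1 / 2) ^ N)
      ≤ c * Real.exp (c + 1) / n * 1 := mul_le_mul_of_nonneg_left hgeo (by positivity)
    _ = _ := mul_one _

end Pool.Agent.W2helper76.RGO
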