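import Mathlib

set_option autoImplicit false

/-!
Orders generated by forests embed in products of three chains (in a form suited to gluing).
-/

namespace Pool.Agent.W2helper76.RGO

open Relation

variable {V : Type*}

/-- the order generated by a relation -/
abbrev Le (r : V → V → Prop) : V → V → Prop := ReflTransGen r

/-- connectedness by the edges of `r`, in any direction -/
abbrev Conn (r : V → V → Prop) : V → V → Prop := ReflTransGen (fun a b => r a b ∨ r b a)

lemma rmono {r s : V → V → Prop} (hrs : ∀ a b, r a b → s a b) {a b : V}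
    (h : ReflTransGen r a b) : ReflTransGen s a b := by
  induction h with
  | refl => exact ReflTransGen.refl
  | tail _ h2 ih => exact ih.tail (hrs _ _ h2)

lemma conn_symm {r : V → V → Prop} {a b : V} (h : Conn r a b) : Conn r b a := by
  induction h with
  | refl => exact ReflTransGen.refl
  | tail _ h2 ih => exact ReflTransGen.head h2.symm ih

lemma le_conn {r : V → V → Prop} {a b : V} (h : Le r a b) : Conn r a b :=
  rmono (fun _ _ h => Or.inl h) h

lemma conn_mono {r s : V → V → Prop} (hrs : ∀ a b, r a b → s a b) {a b : V} (h : Conn r a b) :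
    Conn s a b :=
  rmono (fun _ _ h => h.imp (hrs _ _) (hrs _ _)) h

lemma le_mono {r s : V → V → Prop} (hrs : ∀ a b, r a b → s a b) {a b : V} (h : Le r a b) :
    Le s a b :=
  rmono (fun _ _ h => hrs _ _ h) h

lemma rflip {r : V → V → Prop} {a b : V} (h : ReflTransGen r b a) :
    ReflTransGen (flip r) a b := by
  induction h with
  | refl => exact ReflTransGen.refl
  | tail _ h2 ih => exact ReflTransGen.head h2 ih

lemma le_flip {r : V → V → Prop} {a b : V} : Le (flip r) a b ↔ Le r b a := by
  constructor
  · intro h
    exact rflip (r := flip r) h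
  · intro h
    exact rflip h

lemma conn_flip {r : V → V → Prop} {a b : V} : Conn (flip r) a b ↔ Conn r a b := by
  constructor
  · exact fun h => rmono (fun _ _ h => h.symm) h
  · exact fun h => rmono (fun _ _ h => h.symm) h

/-- the order after adding the edge `(x, c)` -/
lemma le_add {r r' : V → V → Prop} {x c : V} (hr : ∀ i j, r i j ↔ r' i j ∨ (i = x ∧ j = c))
    (hxc : ¬ Le r' c x) {u w : V} : Le r u w ↔ Le r' u w ∨ (Le r' u x ∧ Le r' c w) := by
  constructor
  · intro h
    induction h with
    | refl => exact Or.inl ReflTransGen.refl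
    | tail _ h2 ih =>
      rcases (hr _ _).1 h2 with h3 | ⟨rfl, rfl⟩
      · rcases ih with ih | ⟨ih1, ih2⟩
        · exact Or.inl (ih.tail h3)
        · exact Or.inr ⟨ih1, ih2.tail h3⟩
      · rcases ih with ih | ⟨ih1, ih2⟩
        · exact Or.inr ⟨ih, ReflTransGen.refl⟩
        · exact absurd ih2 hxc
  · rintro (h | ⟨h1, h2⟩)
    · exact le_mono (fun i j h => (hr i j).2 (Or.inl h)) h
    · have e1 : Le r u x := le_mono (fun i j h => (hr i j).2 (Or.inl h)) h1
      have e2 : Le r c w := le_mono (fun i j h => (hr i j).2 (Or.inl h)) h2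
      exact (e1.tail ((hr x c).2 (Or.inr ⟨rfl, rfl⟩))).trans e2

lemma conn_add {r r' : V → V → Prop} {x c : V} (hr : ∀ i j, r i j ↔ r' i j ∨ (i = x ∧ j = c))
    {w : V} : Conn r x w ↔ Conn r' x w ∨ Conn r' c w := by
  constructor
  · intro h
    induction h with
    | refl => exact Or.inl ReflTransGen.refl
    | tail _ h2 ih =>
      rename_i b d _
      have key : (r' b d ∨ r' d b) ∨ (b = x ∧ d = c) ∨ (d = x ∧ b = c) := by
        rcases h2 with h2 | h2
        · rcases (hr _ _).1 h2 with h3 | h3
          · exact Or.inl (Or.inl h3)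
          · exact Or.inr (Or.inl h3)
        · rcases (hr _ _).1 h2 with h3 | h3
          · exact Or.inl (Or.inr h3)
          · exact Or.inr (Or.inr h3)
      rcases key with h3 | ⟨_, rfl⟩ | ⟨rfl, _⟩
      · rcases ih with ih | ih
        · exact Or.inl (ih.tail h3)
        · exact Or.inr (ih.tail h3)
      · exact Or.inr ReflTransGen.refl
      · exact Or.inl ReflTransGen.refl
  · rintro (h | h)
    · exact conn_mono (fun i j h => (hr i j).2 (Or.inl h)) h
    · have e : Conn r c w := conn_mono (fun i j h => (hr i j).2 (Or.inl h)) h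
      exact ReflTransGen.head (Or.inl ((hr x c).2 (Or.inr ⟨rfl, rfl⟩))) e

/-- maps into linear orders can be replaced by maps into the integers -/
lemma exists_rank [Finite V] {α : Type*} [LinearOrder α] (g : V → α) :
    ∃ f : V → ℤ, ∀ u v, f u ≤ f v ↔ g u ≤ g v := by
  classical
  have := Fintype.ofFinite V
  refine ⟨fun u => ((Finset.univ.filter fun w => g w < g u).card : ℤ), fun u v => ?_⟩
  constructor
  · intro h
    by_contra hlt
    rw [not_le] at hlt
    have : (Finset.univ.filter fun w => g w < g v) ⊂ (Finset.univ.filter fun w => g w < g u) := by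
      rw [Finset.ssubset_iff_of_subset]
      · exact ⟨v, by simpa using hlt, by simp⟩
      · intro w hw
        simp only [Finset.mem_filter, Finset.mem_univ, true_and] at hw ⊢
        exact hw.trans hlt
    have := Finset.card_lt_card this
    simp only at h
    omega
  · intro h
    simp only
    have : (Finset.univ.filter fun w => g w < g u) ⊆ (Finset.univ.filter fun w => g w < g v) := by
      intro w hw
      simp only [Finset.mem_filter, Finset.mem_univ, true_and] at hw ⊢
      exact hw.trans_le h
    exact_mod_cast Finset.card_le_card this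

/-- three monotone maps describing the order on the component of `x` -/
structure Tri (r : V → V → Prop) (x : V) (f1 f2 f3 : V → ℤ) : Prop where
  m1 : ∀ i j, Conn r x i → r i j → f1 i ≤ f1 j
  m2 : ∀ i j, Conn r x i → r i j → f2 i ≤ f2 j
  m3 : ∀ i j, Conn r x i → r i j → f3 i ≤ f3 j
  emb : ∀ u v, Conn r x u → Conn r x v → f1 u ≤ f1 v → f2 u ≤ f2 v → f3 u ≤ f3 v → Le r u v
  t2 : ∀ u v, Conn r x u → Conn r x v → Le r x u → ¬ Le r x v → f2 v < f2 u
  t3 : ∀ u v, Conn r x u → Conn r x v → Le r u x → ¬ Le r v x → f3 u < f3 v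

lemma Tri.flip' {r : V → V → Prop} {x : V} {f1 f2 f3 : V → ℤ} (h : Tri r x f1 f2 f3) :
    Tri (flip r) x (fun v => - f1 v) (fun v => - f3 v) (fun v => - f2 v) where
  m1 := fun i j hi hij => by
    have hj : Conn r x j := (conn_flip.1 hi).tail (Or.inr hij)
    have := h.m1 j i hj hij
    simpa using this
  m2 := fun i j hi hij => by
    have hj : Conn r x j := (conn_flip.1 hi).tail (Or.inr hij)
    have := h.m3 j i hj hij
    simpa using this
  m3 := fun i j hi hij => by
    have hj : Conn r x j := (conn_flip.1 hi).tail (Or.inr hij)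
    have := h.m2 j i hj hij
    simpa using this
  emb := fun u v hu hv h1 h2 h3 => by
    rw [le_flip]
    exact h.emb v u (conn_flip.1 hv) (conn_flip.1 hu) (by simpa using h1) (by simpa using h3)
      (by simpa using h2)
  t2 := fun u v hu hv h1 h2 => by
    rw [le_flip] at h1 h2
    have := h.t3 u v (conn_flip.1 hu) (conn_flip.1 hv) h1 h2
    simpa using this
  t3 := fun u v hu hv h1 h2 => by
    rw [le_flip] at h1 h2
    have := h.t2 u v (conn_flip.1 hu) (conn_flip.1 hv) h1 h2
    simpa using this

lemma Tri.glue_up [Finite V] {r r' : V → V → Prop} {x c : V}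
    (hr : ∀ i j, r i j ↔ r' i j ∨ (i = x ∧ j = c)) (hxc : ¬ Conn r' x c)
    {f1 f2 f3 g1 g2 g3 : V → ℤ} (hf : Tri r' x f1 f2 f3) (hg : Tri r' c g1 g2 g3) :
    ∃ e1 e2 e3 : V → ℤ, Tri r x e1 e2 e3 := by
  classical
  have hcx : ¬ Le r' c x := fun h => hxc (conn_symm (le_conn h))
  have hcx' : ¬ Le r' x c := fun h => hxc (le_conn h)
  -- the two parts are disjoint
  have hdisj : ∀ v, Conn r' x v → Conn r' c v → False := fun v h1 h2 =>
    hxc (h1.trans (conn_symm h2))
  set A : V → Prop := fun v => Conn r' x v with hA
  -- block functions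
  obtain ⟨e1, he1⟩ := exists_rank (V := V) (fun v => toLex
    ((if A v then (0:ℤ) else 1), (if A v then f1 v else g1 v)))
  obtain ⟨e2, he2⟩ := exists_rank (V := V) (fun v => toLex
    ((if A v then (1:ℤ) else if Le r' c v then 2 else 0), (if A v then f2 v else g2 v)))
  obtain ⟨e3, he3⟩ := exists_rank (V := V) (fun v => toLex
    ((if A v then (if Le r' v x then (0:ℤ) else 2) else 1), (if A v then f3 v else g3 v)))
  refine ⟨e1, e2, e3, ?_⟩
  have lt2 : ∀ u v, e2 u < e2 v ↔ toLex
    ((if A u then (1:ℤ) else if Le r' c u then 2 else 0), (if A u then f2 u else g2 u)) <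
    toLex ((if A v then (1:ℤ) else if Le r' c v then 2 else 0), (if A v then f2 v else g2 v)) := by
    intro u v
    rw [← not_le, ← not_le, he2]
  have lt3 : ∀ u v, e3 u < e3 v ↔ toLex
    ((if A u then (if Le r' u x then (0:ℤ) else 2) else 1), (if A u then f3 u else g3 u)) <
    toLex ((if A v then (if Le r' v x then (0:ℤ) else 2) else 1), (if A v then f3 v else g3 v)) := by
    intro u v
    rw [← not_le, ← not_le, he3]
  -- components
  have hcomp : ∀ v, Conn r x v → Conn r' x v ∨ Conn r' c v := fun v h => (conn_add hr).1 h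
  have hBA : ∀ v, Conn r' c v → ¬ A v := fun v h h' => hdisj v h' h
  have hle := @le_add V r r' x c hr hcx
  -- order facts
  have hAA : ∀ u v, A u → A v → (Le r u v ↔ Le r' u v) := by
    intro u v hu hv
    rw [hle]
    constructor
    · rintro (h | ⟨_, h⟩)
      · exact h
      · exact (hdisj v hv (le_conn h)).elim
    · exact Or.inl
  have hBB : ∀ u v, Conn r' c u → Conn r' c v → (Le r u v ↔ Le r' u v) := by
    intro u v hu hv
    rw [hle]
    constructor
    · rintro (h | ⟨h, _⟩)
      · exact h
      · exact (hdisj u (conn_symm (le_conn h)) hu).elim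
    · exact Or.inl
  have hxu : ∀ u, A u → (Le r x u ↔ Le r' x u) := fun u hu => hAA x u ReflTransGen.refl hu
  have hux : ∀ u, A u → (Le r u x ↔ Le r' u x) := fun u hu => hAA u x hu ReflTransGen.refl
  have hxb : ∀ u, Conn r' c u → (Le r x u ↔ Le r' c u) := by
    intro u hu
    rw [hle]
    constructor
    · rintro (h | ⟨_, h⟩)
      · exact (hdisj u (le_conn h) hu).elim
      · exact h
    · exact fun h => Or.inr ⟨ReflTransGen.refl, h⟩
  have hbx : ∀ u, Conn r' c u → ¬ Le r u x := by
    intro u hu
    rw [hle]
    rintro (h | ⟨h, _⟩)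
    · exact hdisj u (conn_symm (le_conn h)) hu
    · exact hdisj u (conn_symm (le_conn h)) hu
  -- edges of r inside the component
  have hedge : ∀ i j, Conn r x i → r i j →
      (A i ∧ A j ∧ r' i j) ∨ (Conn r' c i ∧ Conn r' c j ∧ r' i j) ∨ (i = x ∧ j = c) := by
    intro i j hi hij
    rcases (hr i j).1 hij with h | h
    · rcases hcomp i hi with h' | h'
      · exact Or.inl ⟨h', h'.tail (Or.inl h), h⟩
      · exact Or.inr (Or.inl ⟨h', h'.tail (Or.inl h), h⟩)
    · exact Or.inr (Or.inr h)
  have hAx : A x := ReflTransGen.refl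
  have hAc : ¬ A c := hxc
  constructor
  · intro i j hi hij
    rw [he1, Prod.Lex.toLex_le_toLex]
    rcases hedge i j hi hij with ⟨h1, h2, h3⟩ | ⟨h1, h2, h3⟩ | ⟨rfl, rfl⟩
    · right
      simp only [if_pos h1, if_pos h2, true_and]
      exact hf.m1 i j h1 h3
    · right
      simp only [if_neg (hBA i h1), if_neg (hBA j h2), true_and]
      exact hg.m1 i j h1 h3
    · left
      simp only [if_pos hAx, if_neg hAc]
      norm_num
  · intro i j hi hij
    rw [he2, Prod.Lex.toLex_le_toLex]
    rcases hedge i j hi hij with ⟨h1, h2, h3⟩ | ⟨h1, h2, h3⟩ | ⟨rfl, rfl⟩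
    · right
      simp only [if_pos h1, if_pos h2, true_and]
      exact hf.m2 i j h1 h3
    · simp only [if_neg (hBA i h1), if_neg (hBA j h2)]
      have hm := hg.m2 i j h1 h3
      by_cases c1 : Le r' c i
      · have c2 : Le r' c j := c1.tail h3
        right; simp only [if_pos c1, if_pos c2, true_and]; exact hm
      · by_cases c2 : Le r' c j
        · left; simp only [if_neg c1, if_pos c2]; norm_num
        · right; simp only [if_neg c1, if_neg c2, true_and]; exact hm
    · left
      simp only [if_pos hAx, if_neg hAc, if_pos (ReflTransGen.refl : Le r' j j)]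
      norm_num
  · intro i j hi hij
    rw [he3, Prod.Lex.toLex_le_toLex]
    rcases hedge i j hi hij with ⟨h1, h2, h3⟩ | ⟨h1, h2, h3⟩ | ⟨rfl, rfl⟩
    · simp only [if_pos h1, if_pos h2]
      have hm := hf.m3 i j h1 h3
      by_cases c2 : Le r' j x
      · have c1 : Le r' i x := ReflTransGen.head h3 c2
        right; simp only [if_pos c1, if_pos c2, true_and]; exact hm
      · by_cases c1 : Le r' i x
        · left; simp only [if_pos c1, if_neg c2]; norm_num
        · right; simp only [if_neg c1, if_neg c2, true_and]; exact hm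
    · right
      simp only [if_neg (hBA i h1), if_neg (hBA j h2), true_and]
      exact hg.m3 i j h1 h3
    · left
      simp only [if_pos hAx, if_neg hAc, if_pos (ReflTransGen.refl : Le r' i i)]
      norm_num
  · intro u v hu hv h1 h2 h3
    rw [he1, Prod.Lex.toLex_le_toLex] at h1
    rw [he2, Prod.Lex.toLex_le_toLex] at h2
    rw [he3, Prod.Lex.toLex_le_toLex] at h3
    rcases hcomp u hu with hu' | hu' <;> rcases hcomp v hv with hv' | hv'
    · -- both in A
      have au : A u := hu'
      have av : A v := hv'
      rw [hAA u v hu' hv']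
      simp only [if_pos au, if_pos av, lt_irrefl, false_or, true_and] at h1 h2 h3
      refine hf.emb u v hu' hv' h1 h2 ?_
      by_cases c1 : Le r' u x <;> by_cases c2 : Le r' v x
      · simp only [if_pos c1, if_pos c2, lt_irrefl, false_or, true_and] at h3; exact h3
      · exact (hf.t3 u v hu' hv' c1 c2).le
      · simp only [if_neg c1, if_pos c2] at h3; norm_num at h3
      · simp only [if_neg c1, if_neg c2, lt_irrefl, false_or, true_and] at h3; exact h3
    · -- u in A, v in B
      have au : A u := hu'
      have nv := hBA v hv'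
      simp only [if_pos au, if_neg nv] at h2 h3
      have c2 : Le r' c v := by
        by_contra c2
        simp only [if_neg c2] at h2
        norm_num at h2
      have c1 : Le r' u x := by
        by_contra c1
        simp only [if_neg c1] at h3
        norm_num at h3
      rw [hle]
      exact Or.inr ⟨c1, c2⟩
    · -- u in B, v in A
      have av : A v := hv'
      have nu := hBA u hu'
      simp only [if_neg nu, if_pos av] at h1
      norm_num at h1
    · -- both in B
      have nu := hBA u hu'
      have nv := hBA v hv'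
      rw [hBB u v hu' hv']
      simp only [if_neg nu, if_neg nv, lt_irrefl, false_or, true_and] at h1 h2 h3
      refine hg.emb u v hu' hv' h1 ?_ h3
      by_cases c1 : Le r' c u <;> by_cases c2 : Le r' c v
      · simp only [if_pos c1, if_pos c2, lt_irrefl, false_or, true_and] at h2; exact h2
      · simp only [if_pos c1, if_neg c2] at h2; norm_num at h2
      · exact (hg.t2 v u hv' hu' c2 c1).le
      · simp only [if_neg c1, if_neg c2, lt_irrefl, false_or, true_and] at h2; exact h2
  · intro u v hu hv h1 h2
    rw [lt2, Prod.Lex.toLex_lt_toLex]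
    rcases hcomp u hu with hu' | hu' <;> rcases hcomp v hv with hv' | hv'
    · have au : A u := hu'
      have av : A v := hv'
      right
      simp only [if_pos au, if_pos av, true_and]
      rw [hxu u hu'] at h1
      rw [hxu v hv'] at h2
      exact hf.t2 u v hu' hv' h1 h2
    · have au : A u := hu'
      have nv := hBA v hv'
      rw [hxb v hv'] at h2
      left
      simp only [if_pos au, if_neg nv, if_neg h2]
      norm_num
    · have av : A v := hv'
      have nu := hBA u hu'
      rw [hxb u hu'] at h1
      left
      simp only [if_pos av, if_neg nu, if_pos h1]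
      norm_num
    · have nu := hBA u hu'
      have nv := hBA v hv'
      rw [hxb u hu'] at h1
      rw [hxb v hv'] at h2
      left
      simp only [if_neg nv, if_neg nu, if_pos h1, if_neg h2]
      norm_num
  · intro u v hu hv h1 h2
    rw [lt3, Prod.Lex.toLex_lt_toLex]
    rcases hcomp u hu with hu' | hu' <;> rcases hcomp v hv with hv' | hv'
    · have au : A u := hu'
      have av : A v := hv'
      rw [hux u hu'] at h1
      rw [hux v hv'] at h2
      left
      simp only [if_pos au, if_pos av, if_pos h1, if_neg h2]
      norm_num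
    · have au : A u := hu'
      have nv := hBA v hv'
      rw [hux u hu'] at h1
      left
      simp only [if_pos au, if_neg nv, if_pos h1]
      norm_num
    · exact (hbx u hu' h1).elim
    · exact (hbx u hu' h1).elim

lemma Tri.glue_down [Finite V] {r r' : V → V → Prop} {x c : V}
    (hr : ∀ i j, r i j ↔ r' i j ∨ (i = c ∧ j = x)) (hxc : ¬ Conn r' x c)
    {f1 f2 f3 g1 g2 g3 : V → ℤ} (hf : Tri r' x f1 f2 f3) (hg : Tri r' c g1 g2 g3) :
    ∃ e1 e2 e3 : V → ℤ, Tri r x e1 e2 e3 := by
  have hr2 : ∀ i j, (flip r) i j ↔ (flip r') i j ∨ (i = x ∧ j = c) := by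
    intro i j
    simp only [flip]
    rw [hr j i, and_comm]
  obtain ⟨e1, e2, e3, he⟩ := Tri.glue_up hr2 (fun h => hxc (conn_flip.1 h)) hf.flip' hg.flip'
  exact ⟨_, _, _, he.flip'⟩

/-- the relation given by a finite set of pairs -/
abbrev rel (E : Finset (V × V)) : V → V → Prop := fun i j => (i, j) ∈ E

/-- no edge has its ends connected by the other edges -/
def Forest [DecidableEq V] (E : Finset (V × V)) : Prop :=
  ∀ e ∈ E, ¬ Conn (rel (E.erase e)) e.1 e.2

lemma Forest.mono [DecidableEq V] {E E' : Finset (V × V)} (h : Forest E) (hs : E' ⊆ E) :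
    Forest E' := by
  intro e he hc
  refine h e (hs he) (conn_mono (fun a b hab => ?_) hc)
  exact Finset.erase_subset_erase e hs hab

lemma Forest.exists_tri [DecidableEq V] [Finite V] (m : ℕ) : ∀ E : Finset (V × V), E.card = m →
    Forest E → ∀ x : V, ∃ f1 f2 f3 : V → ℤ, Tri (rel E) x f1 f2 f3 := by
  induction m using Nat.strong_induction_on with
  | _ m IH =>
  intro E hE hF x
  by_cases hx : ∃ e ∈ E, e.1 = x ∨ e.2 = x
  · obtain ⟨e, he, hex⟩ := hx
    have hlt : (E.erase e).card < m := by
      rw [← hE]; exact Finset.card_erase_lt_of_mem he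
    have hF' : Forest (E.erase e) := hF.mono (Finset.erase_subset _ _)
    have hnc := hF e he
    obtain ⟨a, b⟩ := e
    simp only at hex hnc
    obtain ⟨f1, f2, f3, hf⟩ := IH _ hlt (E.erase (a, b)) rfl hF' a
    obtain ⟨g1, g2, g3, hg⟩ := IH _ hlt (E.erase (a, b)) rfl hF' b
    have hr : ∀ i j, rel E i j ↔ rel (E.erase (a, b)) i j ∨ (i = a ∧ j = b) := by
      intro i j
      simp only [rel, Finset.mem_erase, ne_eq, Prod.mk.injEq]
      constructor
      · intro h
        by_cases h' : i = a ∧ j = b
        · exact Or.inr h'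
        · exact Or.inl ⟨h', h⟩
      · rintro (h | ⟨rfl, rfl⟩)
        · exact h.2
        · exact he
    rcases hex with rfl | rfl
    · exact Tri.glue_up hr hnc hf hg
    · exact Tri.glue_down hr (fun h => hnc (conn_symm h)) hg hf
  · -- isolated
    push Not at hx
    have hiso : ∀ v, Conn (rel E) x v → v = x := by
      intro v hv
      induction hv with
      | refl => rfl
      | tail _ h2 ih =>
        subst ih
        rcases h2 with h2 | h2
        · exact absurd rfl (hx _ h2).1
        · exact absurd rfl (hx _ h2).2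
    refine ⟨fun _ => 0, fun _ => 0, fun _ => 0, ?_, ?_, ?_, ?_, ?_, ?_⟩
    · intros; exact le_refl _
    · intros; exact le_refl _
    · intros; exact le_refl _
    · intro u v hu hv _ _ _
      rw [hiso u hu, hiso v hv]
    · intro u v hu hv h1 h2
      rw [hiso v hv] at h2
      exact absurd ReflTransGen.refl h2
    · intro u v hu hv h1 h2
      rw [hiso v hv] at h2
      exact absurd ReflTransGen.refl h2

end Pool.Agent.W2helper76.RGO
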