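import Pool.Agent.W2helper76.RGO.Tree

set_option autoImplicit false

/-!
Orders generated by sparse graphs (every vertex set spans at most as many edges as vertices)
embed in products of six chains.
-/

namespace Pool.Agent.W2helper76.RGO

open Relation

variable {V : Type*}

/-- `d` monotone maps describing the order on the component of `x` -/
structure Emb (r : V → V → Prop) (x : V) (d : ℕ) (f : Fin d → V → ℤ) : Prop where
  mono : ∀ k i j, Conn r x i → r i j → f k i ≤ f k j
  emb : ∀ u v, Conn r x u → Conn r x v → (∀ k, f k u ≤ f k v) → Le r u v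

lemma Tri.toEmb {r : V → V → Prop} {x : V} {f1 f2 f3 : V → ℤ} (h : Tri r x f1 f2 f3) :
    Emb r x 3 ![f1, f2, f3] where
  mono := by
    intro k i j hi hij
    fin_cases k
    · exact h.m1 i j hi hij
    · exact h.m2 i j hi hij
    · exact h.m3 i j hi hij
  emb := fun u v hu hv hk => h.emb u v hu hv (hk 0) (hk 1) (hk 2)

/-- adding an edge at most doubles the number of chains -/
lemma Emb.add_edge [Finite V] {r r' : V → V → Prop} {x a b : V}
    (hr : ∀ i j, r i j ↔ r' i j ∨ (i = a ∧ j = b)) (hba : ¬ Le r' b a)
    (hconn : Conn r' x a ∧ Conn r' x b) {d : ℕ} {f : Fin d → V → ℤ} (hf : Emb r' x d f) :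
    ∃ g : Fin (d + d) → V → ℤ, Emb r x (d + d) g := by
  classical
  have hle := @le_add V r r' a b hr hba
  have hc : ∀ v, Conn r x v ↔ Conn r' x v := by
    intro v
    constructor
    · intro h
      induction h with
      | refl => exact ReflTransGen.refl
      | tail _ h2 ih =>
        rename_i p q _
        have key : (r' p q ∨ r' q p) ∨ (p = a ∧ q = b) ∨ (q = a ∧ p = b) := by
          rcases h2 with h2 | h2
          · rcases (hr _ _).1 h2 with h3 | h3
            · exact Or.inl (Or.inl h3)
            · exact Or.inr (Or.inl h3)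
          · rcases (hr _ _).1 h2 with h3 | h3
            · exact Or.inl (Or.inr h3)
            · exact Or.inr (Or.inr h3)
        rcases key with h3 | ⟨_, rfl⟩ | ⟨rfl, _⟩
        · exact ih.tail h3
        · exact hconn.2
        · exact hconn.1
    · exact fun h => conn_mono (fun i j h => (hr i j).2 (Or.inl h)) h
  have G : ∀ k : Fin d, ∃ e : V → ℤ, ∀ u v, e u ≤ e v ↔
      toLex ((if Le r' b u then (1:ℤ) else 0), f k u) ≤
        toLex ((if Le r' b v then (1:ℤ) else 0), f k v) := fun k => exists_rank _
  have H : ∀ k : Fin d, ∃ e : V → ℤ, ∀ u v, e u ≤ e v ↔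
      toLex ((if Le r' u a then (0:ℤ) else 1), f k u) ≤
        toLex ((if Le r' v a then (0:ℤ) else 1), f k v) := fun k => exists_rank _
  choose g hg using G
  choose h hh using H
  refine ⟨Fin.append g h, ?_, ?_⟩
  · intro k i j hi hij
    rw [hc] at hi
    refine Fin.addCases (fun k => ?_) (fun k => ?_) k
    · rw [Fin.append_left, hg, Prod.Lex.toLex_le_toLex]
      rcases (hr i j).1 hij with h1 | ⟨rfl, rfl⟩
      · have hm := hf.mono k i j hi h1
        by_cases c1 : Le r' b i
        · have c2 : Le r' b j := c1.tail h1
          right; simp only [if_pos c1, if_pos c2, true_and]; exact hm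
        · by_cases c2 : Le r' b j
          · left; simp only [if_neg c1, if_pos c2]; norm_num
          · right; simp only [if_neg c1, if_neg c2, true_and]; exact hm
      · left
        simp only [if_neg hba, if_pos (ReflTransGen.refl : Le r' j j)]
        norm_num
    · rw [Fin.append_right, hh, Prod.Lex.toLex_le_toLex]
      rcases (hr i j).1 hij with h1 | ⟨rfl, rfl⟩
      · have hm := hf.mono k i j hi h1
        by_cases c2 : Le r' j a
        · have c1 : Le r' i a := ReflTransGen.head h1 c2
          right; simp only [if_pos c1, if_pos c2, true_and]; exact hm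
        · by_cases c1 : Le r' i a
          · left; simp only [if_pos c1, if_neg c2]; norm_num
          · right; simp only [if_neg c1, if_neg c2, true_and]; exact hm
      · left
        simp only [if_neg hba, if_pos (ReflTransGen.refl : Le r' i i)]
        norm_num
  · intro u v hu hv hk
    rw [hc] at hu hv
    rw [hle]
    by_contra hcon
    push Not at hcon
    obtain ⟨h1, h2⟩ := hcon
    have : ∃ k, f k v < f k u := by
      by_contra hall
      push Not at hall
      exact h1 (hf.emb u v hu hv hall)
    obtain ⟨k, hlt⟩ := this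
    have k1 := hk (Fin.castAdd d k)
    have k2 := hk (Fin.natAdd d k)
    rw [Fin.append_left, hg, Prod.Lex.toLex_le_toLex] at k1
    rw [Fin.append_right, hh, Prod.Lex.toLex_le_toLex] at k2
    have c1 : Le r' b v := by
      by_contra c1
      simp only [if_neg c1] at k1
      rcases k1 with k1 | ⟨_, k1⟩
      · split_ifs at k1 <;> norm_num at k1
      · omega
    have c2 : Le r' u a := by
      by_contra c2
      simp only [if_neg c2] at k2
      rcases k2 with k2 | ⟨_, k2⟩
      · split_ifs at k2 <;> norm_num at k2
      · omega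
    exact h2 c2 c1

/-- edges spanned by a vertex set -/
def span [DecidableEq V] (E : Finset (V × V)) (S : Finset V) : Finset (V × V) :=
  E.filter fun e => e.1 ∈ S ∧ e.2 ∈ S

lemma mem_span [DecidableEq V] {E : Finset (V × V)} {S : Finset V} {e : V × V} :
    e ∈ span E S ↔ e ∈ E ∧ e.1 ∈ S ∧ e.2 ∈ S := Finset.mem_filter

lemma span_mono [DecidableEq V] {E : Finset (V × V)} {S T : Finset V} (h : S ⊆ T) :
    span E S ⊆ span E T := by
  intro e he
  rw [mem_span] at he ⊢
  exact ⟨he.1, h he.2.1, h he.2.2⟩

/-- adding a vertex with an edge -/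
lemma card_span_insert [DecidableEq V] {E : Finset (V × V)} {S : Finset V} {w : V} (hw : w ∉ S)
    {e : V × V} (he : e ∈ E) (h : (e.1 ∈ S ∧ e.2 = w) ∨ (e.1 = w ∧ e.2 ∈ S)) :
    (span E S).card + 1 ≤ (span E (insert w S)).card := by
  have h1 : insert e (span E S) ⊆ span E (insert w S) := by
    intro f hf
    rcases Finset.mem_insert.1 hf with rfl | hf
    · rw [mem_span]
      refine ⟨he, ?_⟩
      rcases h with ⟨h1, h2⟩ | ⟨h1, h2⟩
      · exact ⟨Finset.mem_insert_of_mem h1, by rw [h2]; exact Finset.mem_insert_self _ _⟩
      · exact ⟨by rw [h1]; exact Finset.mem_insert_self _ _, Finset.mem_insert_of_mem h2⟩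
    · exact span_mono (Finset.subset_insert _ _) hf
  have h2 : e ∉ span E S := by
    rw [mem_span]
    rintro ⟨_, h3, h4⟩
    rcases h with ⟨_, h2⟩ | ⟨h1, _⟩
    · rw [h2] at h4; exact hw h4
    · rw [h1] at h3; exact hw h3
  calc (span E S).card + 1 = (insert e (span E S)).card := by
        rw [Finset.card_insert_of_notMem h2]
    _ ≤ _ := Finset.card_le_card h1

/-- the component of `x` as a finset -/
noncomputable def comp [Fintype V] [DecidableEq V] (E : Finset (V × V)) (x : V) : Finset V := by
  classical exact Finset.univ.filter fun v => Conn (rel E) x v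

lemma mem_comp [Fintype V] [DecidableEq V] {E : Finset (V × V)} {x v : V} :
    v ∈ comp E x ↔ Conn (rel E) x v := by
  classical
  unfold comp
  simp

/-- a component spans at least `|component| - 1` edges -/
lemma card_comp_le [Fintype V] [DecidableEq V] (E : Finset (V × V)) (x : V) :
    (comp E x).card ≤ (span E (comp E x)).card + 1 := by
  classical
  set W := comp E x with hW
  -- a largest good set
  have hne : ((W.powerset).filter fun S => x ∈ S ∧ S.card ≤ (span E S).card + 1).Nonempty := by
    refine ⟨{x}, ?_⟩
    rw [Finset.mem_filter, Finset.mem_powerset]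
    refine ⟨?_, Finset.mem_singleton_self _, by simp⟩
    rw [Finset.singleton_subset_iff, hW, mem_comp]
  obtain ⟨S, hS, hmax⟩ := Finset.exists_max_image _ (fun S : Finset V => S.card) hne
  rw [Finset.mem_filter, Finset.mem_powerset] at hS
  obtain ⟨hSW, hxS, hSc⟩ := hS
  have hWS : W ⊆ S := by
    intro w hw
    rw [hW, mem_comp] at hw
    induction hw with
    | refl => exact hxS
    | tail h1 h2 ih =>
      rename_i p q
      by_contra hq
      have hqW : q ∈ W := by rw [hW, mem_comp]; exact h1.tail h2
      have hpS : p ∈ S := ih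
      have hgood : insert q S ∈ (W.powerset).filter fun S => x ∈ S ∧
          S.card ≤ (span E S).card + 1 := by
        rw [Finset.mem_filter, Finset.mem_powerset]
        refine ⟨Finset.insert_subset hqW hSW, Finset.mem_insert_of_mem hxS, ?_⟩
        rw [Finset.card_insert_of_notMem hq]
        rcases h2 with h2 | h2
        · have := card_span_insert hq h2 (Or.inl ⟨hpS, rfl⟩)
          omega
        · have := card_span_insert hq h2 (Or.inr ⟨rfl, hpS⟩)
          omega
      have := hmax _ hgood
      rw [Finset.card_insert_of_notMem hq] at this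
      omega
  have : W = S := Finset.Subset.antisymm hWS hSW
  rw [this]
  exact hSc

/-- inserting an edge between different components keeps a forest -/
lemma Forest.insert' [DecidableEq V] {T : Finset (V × V)} (hT : Forest T) {a b : V}
    (hab : ¬ Conn (rel T) a b) : Forest (insert (a, b) T) := by
  intro e he hc
  have hnot : (a, b) ∉ T := fun h => hab (ReflTransGen.single (Or.inl h))
  rcases Finset.mem_insert.1 he with rfl | he'
  · rw [Finset.erase_insert hnot] at hc
    exact hab hc
  · have hne : (a, b) ≠ e := fun h => hnot (h ▸ he')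
    -- e.1, e.2 connected in insert (a,b) (T.erase e)
    have hr : ∀ i j, rel ((insert (a, b) T).erase e) i j ↔
        rel (T.erase e) i j ∨ (i = a ∧ j = b) := by
      intro i j
      simp only [rel, Finset.mem_erase, Finset.mem_insert, ne_eq, Prod.mk.injEq]
      constructor
      · rintro ⟨h1, h2 | h2⟩
        · exact Or.inr h2
        · exact Or.inl ⟨h1, h2⟩
      · rintro (⟨h1, h2⟩ | ⟨rfl, rfl⟩)
        · exact ⟨h1, Or.inr h2⟩
        · exact ⟨fun h => hne h, Or.inl ⟨rfl, rfl⟩⟩
    have hne' := hT e he'
    -- general principle: connected after adding the edge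
    have key : ∀ p q, Conn (rel ((insert (a, b) T).erase e)) p q →
        Conn (rel (T.erase e)) p q ∨
        (Conn (rel (T.erase e)) p a ∧ Conn (rel (T.erase e)) b q) ∨
        (Conn (rel (T.erase e)) p b ∧ Conn (rel (T.erase e)) a q) := by
      intro p q h
      induction h with
      | refl => exact Or.inl ReflTransGen.refl
      | tail _ h2 ih =>
        rename_i s t _
        have key : (rel (T.erase e) s t ∨ rel (T.erase e) t s) ∨ (s = a ∧ t = b) ∨
            (t = a ∧ s = b) := by
          rcases h2 with h2 | h2
          · rcases (hr _ _).1 h2 with h3 | h3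
            · exact Or.inl (Or.inl h3)
            · exact Or.inr (Or.inl h3)
          · rcases (hr _ _).1 h2 with h3 | h3
            · exact Or.inl (Or.inr h3)
            · exact Or.inr (Or.inr h3)
        rcases key with h3 | ⟨rfl, rfl⟩ | ⟨rfl, rfl⟩
        · rcases ih with ih | ⟨ih1, ih2⟩ | ⟨ih1, ih2⟩
          · exact Or.inl (ih.tail h3)
          · exact Or.inr (Or.inl ⟨ih1, ih2.tail h3⟩)
          · exact Or.inr (Or.inr ⟨ih1, ih2.tail h3⟩)
        · rcases ih with ih | ⟨ih1, ih2⟩ | ⟨ih1, ih2⟩
          · exact Or.inr (Or.inl ⟨ih, ReflTransGen.refl⟩)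
          · exact Or.inr (Or.inl ⟨ih1, ReflTransGen.refl⟩)
          · exact Or.inl ih1
        · rcases ih with ih | ⟨ih1, ih2⟩ | ⟨ih1, ih2⟩
          · exact Or.inr (Or.inr ⟨ih, ReflTransGen.refl⟩)
          · exact Or.inl ih1
          · exact Or.inr (Or.inr ⟨ih1, ReflTransGen.refl⟩)
    have hup : ∀ {p q : V}, Conn (rel (T.erase e)) p q → Conn (rel T) p q := fun h =>
      conn_mono (fun i j h => Finset.mem_of_mem_erase h) h
    have he12 : Conn (rel T) e.1 e.2 := ReflTransGen.single (Or.inl he')
    rcases key _ _ hc with h | ⟨h1, h2⟩ | ⟨h1, h2⟩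
    · exact hne' h
    · exact hab (((conn_symm (hup h1)).trans he12).trans (conn_symm (hup h2)))
    · exact hab (((hup h2).trans (conn_symm he12)).trans (hup h1))

/-- in a sparse graph with acyclic orientation every component embeds in six chains -/
lemma exists_emb_six [Fintype V] [DecidableEq V] {E : Finset (V × V)}
    (hsp : ∀ S : Finset V, (span E S).card ≤ S.card)
    (hac : ∀ a b, (a, b) ∈ E → ¬ Le (rel E) b a) (x : V) :
    ∃ g : Fin 6 → V → ℤ, Emb (rel E) x 6 g := by
  classical
  -- a largest forest
  have hne : ((E.powerset).filter fun T => Forest T).Nonempty := by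
    refine ⟨∅, ?_⟩
    rw [Finset.mem_filter, Finset.mem_powerset]
    refine ⟨Finset.empty_subset _, ?_⟩
    intro e he
    simp at he
  obtain ⟨T, hT, hmax⟩ := Finset.exists_max_image _ (fun T : Finset (V × V) => T.card) hne
  rw [Finset.mem_filter, Finset.mem_powerset] at hT
  obtain ⟨hTE, hTF⟩ := hT
  have hconn : ∀ a b, (a, b) ∈ E → Conn (rel T) a b := by
    intro a b hab
    by_contra hcon
    have hnot : (a, b) ∉ T := fun h => hcon (ReflTransGen.single (Or.inl h))
    have hgood : insert (a, b) T ∈ (E.powerset).filter fun T => Forest T := by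
      rw [Finset.mem_filter, Finset.mem_powerset]
      exact ⟨Finset.insert_subset hab hTE, hTF.insert' hcon⟩
    have := hmax _ hgood
    rw [Finset.card_insert_of_notMem hnot] at this
    omega
  have hcE : ∀ u v, Conn (rel E) u v ↔ Conn (rel T) u v := by
    intro u v
    constructor
    · intro h
      induction h with
      | refl => exact ReflTransGen.refl
      | tail _ h2 ih =>
        rcases h2 with h2 | h2
        · exact ih.trans (hconn _ _ h2)
        · exact ih.trans (conn_symm (hconn _ _ h2))
    · exact fun h => conn_mono (fun i j h => hTE h) h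
  obtain ⟨f1, f2, f3, hf⟩ := hTF.exists_tri T.card T rfl x
  have hemb := hf.toEmb
  -- at most one extra edge in the component
  set W := comp T x with hW
  have hone : ∀ e ∈ E \ T, ∀ f ∈ E \ T, e.1 ∈ W → f.1 ∈ W → e = f := by
    intro e he f hff heW hfW
    by_contra hne'
    rw [Finset.mem_sdiff] at he hff
    have h1 := card_comp_le T x
    rw [← hW] at h1
    have h2 := hsp W
    have h2e : e.2 ∈ W := by
      rw [hW, mem_comp] at heW ⊢
      exact heW.trans (hconn _ _ he.1)
    have h2f : f.2 ∈ W := by
      rw [hW, mem_comp] at hfW ⊢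
      exact hfW.trans (hconn _ _ hff.1)
    have h3 : insert e (insert f (span T W)) ⊆ span E W := by
      intro g hg
      rw [Finset.mem_insert, Finset.mem_insert] at hg
      rcases hg with rfl | rfl | hg
      · rw [mem_span]; exact ⟨he.1, heW, h2e⟩
      · rw [mem_span]; exact ⟨hff.1, hfW, h2f⟩
      · rw [mem_span] at hg ⊢
        exact ⟨hTE hg.1, hg.2⟩
    have h4 : f ∉ span T W := fun h => hff.2 (mem_span.1 h).1
    have h5 : e ∉ insert f (span T W) := by
      rw [Finset.mem_insert]
      rintro (h | h)
      · exact hne' h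
      · exact he.2 (mem_span.1 h).1
    have h6 := Finset.card_le_card h3
    rw [Finset.card_insert_of_notMem h5, Finset.card_insert_of_notMem h4] at h6
    omega
  by_cases hex : ∃ e ∈ E \ T, e.1 ∈ W
  · obtain ⟨⟨a, b⟩, he, haW⟩ := hex
    rw [Finset.mem_sdiff] at he
    simp only at haW
    have hax : Conn (rel T) x a := mem_comp.1 haW
    have hbx : Conn (rel T) x b := hax.trans (hconn _ _ he.1)
    -- relation T + (a,b)
    set r : V → V → Prop := fun i j => (i, j) ∈ T ∨ (i = a ∧ j = b) with hr
    have hba : ¬ Le (rel T) b a := fun h => hac a b he.1 (le_mono (fun i j h => hTE h) h)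
    obtain ⟨g, hg⟩ := Emb.add_edge (r := r) (r' := rel T) (fun i j => Iff.rfl) hba ⟨hax, hbx⟩ hemb
    have hcr : ∀ v, Conn r x v ↔ Conn (rel T) x v := by
      intro v
      constructor
      · intro h
        rw [← hcE]
        refine conn_mono (fun i j h => ?_) h
        rcases h with h | ⟨rfl, rfl⟩
        · exact hTE h
        · exact he.1
      · exact fun h => conn_mono (fun i j h => Or.inl h) h
    refine ⟨g, ?_, ?_⟩
    · intro k i j hi hij
      rw [hcE] at hi
      refine hg.mono k i j ((hcr i).2 hi) ?_
      by_cases hT' : (i, j) ∈ T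
      · exact Or.inl hT'
      · right
        have := hone (i, j) (Finset.mem_sdiff.2 ⟨hij, hT'⟩) (a, b) (Finset.mem_sdiff.2 he)
          (mem_comp.2 hi) haW
        simpa using this
    · intro u v hu hv hk
      rw [hcE] at hu hv
      have := hg.emb u v ((hcr u).2 hu) ((hcr v).2 hv) hk
      refine le_mono (fun i j h => ?_) this
      rcases h with h | ⟨rfl, rfl⟩
      · exact hTE h
      · exact he.1
  · push Not at hex
    have hsame : ∀ i j, Conn (rel T) x i → (i, j) ∈ E → (i, j) ∈ T := by
      intro i j hi hij
      by_contra hT'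
      exact hex (i, j) (Finset.mem_sdiff.2 ⟨hij, hT'⟩) (mem_comp.2 hi)
    refine ⟨(Fin.append ![f1, f2, f3] ![f1, f2, f3] : Fin (3 + 3) → V → ℤ), ?_, ?_⟩
    · intro k i j hi hij
      rw [hcE] at hi
      refine Fin.addCases (m := 3) (n := 3) (fun k => ?_) (fun k => ?_) k
      · rw [Fin.append_left]; exact hemb.mono k i j hi (hsame i j hi hij)
      · rw [Fin.append_right]; exact hemb.mono k i j hi (hsame i j hi hij)
    · intro u v hu hv hk
      rw [hcE] at hu hv
      refine le_mono (fun i j h => hTE h) (hemb.emb u v hu hv fun k => ?_)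
      have := hk (Fin.castAdd 3 k)
      rw [Fin.append_left] at this
      exact this

end Pool.Agent.W2helper76.RGO
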